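import Pool.Agent.X324.CF.Poly

/-!
# Varieties `F` which satisfy the cone conjecture, and quotients `(A × F) / G`: definitions

As in `Pool.Agent.X324.CF.Defs`, `F` is a normal projective variety, `ℚ`-factorial with free class
group `Cl(F) = ℤ^ρ` and `N^1(F) = Cl(F) ⊗ ℝ = ℝ^ρ`, and `R = ⨁ 𝒜 β` is its Cox ring, with
`𝒜 β = H⁰(F, O_F(β))`, which need not be finitely generated; the points of `F` are given by the
semistable points of `Spec R`. Here `F` can have infinitely many automorphisms. `A = V / Λ` is an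
abelian variety, and `X = (A × F) / G = (V × F) / Γ`.
-/

set_option autoImplicit false

namespace Pool.Agent.U201.EC

open Pool.Agent.X324.CF
open Pool.Agent.Y167 (cone)
open Pool.Agent.Y167.CC (LinGrp Preserves)

section F

variable {ρ : ℕ} {R : Type*} [CommRing R] [Algebra ℂ R] (𝒜 : Cl ρ → Submodule ℂ R)

/-- The nef cone of `F`: the closure of the cone spanned by the semiample classes. -/
def NefF (u : Cl ρ) : Set (Fin ρ → ℝ) := closure (coneHull {b | ∃ β, SemiampleF 𝒜 u β ∧ b = rv β})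

/-- The effective cone of `F`: the cone spanned by the classes `β` such that `O_F(β)` has a
section, not identically zero. -/
def EffF : Set (Fin ρ → ℝ) := coneHull {b | ∃ β, (∃ r ∈ 𝒜 β, r ≠ 0) ∧ b = rv β}

/-- The automorphism `φ` of the Cox ring acts on `Cl(F)` by `σ`, and the points of `Spec R` which are
semistable for the ample class `u` and for `σ u` are the same. So `φ` gives an automorphism
of `F`. -/
def IsAut (u : Cl ρ) (φ : R ≃ₐ[ℂ] R) (σ : Cl ρ ≃+ Cl ρ) : Prop :=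
  Induces 𝒜 φ σ ∧ ∀ p : R →ₐ[ℂ] ℂ, Semistable 𝒜 (σ u) p ↔ Semistable 𝒜 u p

/-- The linear map on the space of real classes which extends `σ`. -/
noncomputable def ext (σ : Cl ρ ≃+ Cl ρ) (b : Fin ρ → ℝ) : Fin ρ → ℝ :=
  ∑ i, b i • rv (σ (Pi.single i 1))

/-- `F` is a normal projective variety, `ℚ`-factorial with free class group `Cl(F) = ℤ^ρ` and with
ample class `u`, which satisfies the cone conjecture (its existence part), and only finitely many
automorphisms of `F` act trivially on `Cl(F)`. The conditions say: `F` is not empty; every class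
becomes effective, and semiample, when a multiple of `u` is added; for some class of curves `y`, the
coordinates of an effective class are bounded by its degree on `y`; the automorphisms of the Cox ring
which act trivially on `Cl(F)` are, up to those which are scalar on each piece, finitely many; there
is a rational polyhedral cone in `Nef(F) ∩ Eff(F)`, spanned by the finite set `P`, such that every
class in `Nef(F) ∩ Eff(F)` is mapped into this cone by an automorphism of `F`. -/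
structure IsConeVariety (u : Cl ρ) : Prop where
  point : ∃ p : R →ₐ[ℂ] ℂ, Semistable 𝒜 u p
  sections : ∀ β : Cl ρ, ∃ m : ℕ, (∃ r ∈ 𝒜 (β + m • u), r ≠ 0) ∧ ∃ r ∈ 𝒜 (m • u), r ≠ 0
  ample : ∀ β : Cl ρ, ∃ m : ℕ, SemiampleF 𝒜 u (β + m • u)
  curve : ∃ y : Cl ρ, ∀ β, (∃ r ∈ 𝒜 β, r ≠ 0) → ∀ i, |β i| ≤ ∑ k, y k * β k
  kernel : ∃ T : Set (R ≃ₐ[ℂ] R), T.Finite ∧ ∀ φ, Induces 𝒜 φ (AddEquiv.refl _) →
    ∃ t ∈ T, ∃ s ∈ Scal 𝒜, φ = t * s
  cone : ∃ P : Finset (Fin ρ → ℝ), (∀ a ∈ P, (∃ β, a = rv β) ∧ a ∈ NefF 𝒜 u ∩ EffF 𝒜) ∧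
    ∀ b ∈ NefF 𝒜 u ∩ EffF 𝒜, ∃ φ σ, IsAut 𝒜 u φ σ ∧ ext σ b ∈ cone P

end F

section X

variable {V E R : Type*} [NormedAddCommGroup V] [NormedSpace ℂ V]
  [NormedAddCommGroup E] [NormedSpace ℂ E] [CommRing R] [Algebra ℂ R] {ρ : ℕ}
  (𝒜 : Cl ρ → Submodule ℂ R) (Γ : Grp V R)

/-- The automorphism of `V × F` given by `(f, φ)` induces an automorphism of `X = (V × F) / Γ`: it
normalises `Γ`, up to elements `(1, s)` which act trivially on `V × F`. -/
def Descends (f : V ≃ᵃ[ℂ] V) (φ : R ≃ₐ[ℂ] R) : Prop := ∀ γ ∈ Γ,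
  (∃ s ∈ Scal 𝒜, (f, φ) * γ * (f, φ)⁻¹ * (1, s) ∈ Γ) ∧
    ∃ s ∈ Scal 𝒜, (f, φ)⁻¹ * γ * (f, φ) * (1, s) ∈ Γ

variable {𝒜 Γ} {j : E →ₗ[ℂ] V}

/-- `g` is the pullback on `N^1(X/Z)` by the automorphism of `X` induced by the affine transformation
`f` of `V` and an automorphism of `F` which acts on `Cl(F)` by `σ`. (The pair `(f, φ)` maps the point
`(v, p)` to `(f v, p ∘ φ⁻¹)`, and so the pullback on `Cl(F)` is the inverse of `σ`.) -/
def IsPull (f : V ≃ᵃ[ℂ] V) (σ : Cl ρ ≃+ Cl ρ) (g : N1 𝒜 Γ j ≃ₗ[ℝ] N1 𝒜 Γ j) : Prop :=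
  ∀ x : N1 𝒜 Γ j, (∀ u w u' w' : E, j u' = f.linear (j u) → j w' = f.linear (j w) →
    (val (g x)).1 u w = (val x).1 u' w') ∧ ext σ (val (g x)).2 = (val x).2

variable (𝒜 Γ j)

/-- The effective nef cone. -/
def nefEff (u : Cl ρ) : Set (N1 𝒜 Γ j) := nefCone 𝒜 Γ j u ∩ effCone 𝒜 Γ j

variable {𝒜 Γ j}

/-- `𝒢` is a group of linear automorphisms of `N^1(X/Z)` which preserves the integral classes and the
effective nef cone, and which contains the pullbacks by all automorphisms of `X` over `Z` given by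
pairs `(f, φ)`, where `f` is an affine transformation of `V` and `φ` an automorphism of `F`. -/
structure IsAutGroup (u : Cl ρ) (𝒢 : LinGrp (N1 𝒜 Γ j)) : Prop where
  int : Preserves 𝒢 (integral 𝒜 Γ j)
  nef_eff : Preserves 𝒢 (nefEff 𝒜 Γ j u)
  pull : ∀ (f : V ≃ᵃ[ℂ] V) (φ : R ≃ₐ[ℂ] R) (σ : Cl ρ ≃+ Cl ρ), IsAut 𝒜 u φ σ →
    Descends 𝒜 Γ f φ → (∀ v, ∃ e, f v = v + j e) → ∀ g, IsPull f σ g → g ∈ 𝒢

end X

end Pool.Agent.U201.EC
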