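import Pool.Agent.Y167.Dom

/-!
# The Siegel property of rational polyhedral cones
-/

set_option autoImplicit false

namespace Pool.Agent.U201.EC

open Finset Filter Topology
open Pool.Agent.Y167

variable {W : Type*} [AddCommGroup W] [Module ℝ W]
  {L : AddSubgroup W} {Nf : Set W} {ξ₀ : W →ₗ[ℝ] ℝ} {y₀ : W} {Y : Finset W}

/-- `x` is an interior point. -/
def Inn (Nf : Set W) (y₀ x : W) : Prop := ∃ t : ℝ, 0 < t ∧ x - t • y₀ ∈ Nf

theorem inn_act (D : CData L Nf ξ₀ y₀ Y) {𝒢 : Subgroup (W ≃ₗ[ℝ] W)}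
    (hN : ∀ g ∈ 𝒢, ∀ x ∈ Nf, g x ∈ Nf) {g : W ≃ₗ[ℝ] W} (hg : g ∈ 𝒢) {x : W}
    (hx : Inn Nf y₀ x) : Inn Nf y₀ (g x) := by
  obtain ⟨t, ht, h1⟩ := hx
  obtain ⟨C, hC, h2⟩ := D.y_int (g⁻¹ y₀)
  have h3 := hN g hg _ h2
  rw [map_sub, map_smul] at h3
  have h4 : g (g⁻¹ y₀) = y₀ := g.apply_symm_apply y₀
  rw [h4] at h3
  have h5 := hN g hg _ h1
  rw [map_sub, map_smul] at h5
  refine ⟨t / C, by positivity, ?_⟩
  have h6 := D.add _ h5 _ (D.smul (t / C) (by positivity) _ h3)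
  have h7 : (g x - t • g y₀) + (t / C) • (C • g y₀ - y₀) = g x - (t / C) • y₀ := by
    rw [smul_sub, smul_smul, div_mul_cancel₀ _ hC.ne']
    abel
  rwa [h7] at h6

/-- The elements of the group which minimise the degree of `x`. -/
def Mn (𝒢 : Subgroup (W ≃ₗ[ℝ] W)) (ξ : W →ₗ[ℝ] ℝ) (x : W) : Set (W ≃ₗ[ℝ] W) :=
  {g | g ∈ 𝒢 ∧ ∀ h ∈ 𝒢, ξ (g x) ≤ ξ (h x)}

theorem finite_of_inn (D : CData L Nf ξ₀ y₀ Y) {𝒢 : Subgroup (W ≃ₗ[ℝ] W)}
    (hL : ∀ g ∈ 𝒢, ∀ x ∈ L, g x ∈ L) (hN : ∀ g ∈ 𝒢, ∀ x ∈ Nf, g x ∈ Nf) {v : W}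
    (hv : Inn Nf y₀ v) (K : ℝ) : {g : W ≃ₗ[ℝ] W | g ∈ 𝒢 ∧ ξ₀ (g v) ≤ K}.Finite := by
  classical
  obtain ⟨t, ht, h1⟩ := hv
  choose! C hC using D.y_int
  refine (D.finite_small 𝒢 hL hN (∑ y ∈ Y, C y * (|K| / t))).subset ?_
  rintro g ⟨hg, hgK⟩
  refine ⟨hg, fun y hy => ?_⟩
  have h2 := D.xi_nonneg (hN g hg _ h1)
  rw [map_sub, map_sub, map_smul, map_smul, smul_eq_mul, sub_nonneg] at h2
  have h3 : ξ₀ (g y₀) ≤ |K| / t := by
    rw [le_div_iff₀ ht, mul_comm]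
    exact h2.trans (hgK.trans (le_abs_self K))
  have h4 := D.xi_nonneg (hN g hg _ (hC y).2)
  rw [map_sub, map_sub, map_smul, map_smul, smul_eq_mul, sub_nonneg] at h4
  refine h4.trans ((mul_le_mul_of_nonneg_left h3 (hC y).1.le).trans ?_)
  exact Finset.single_le_sum (f := fun y => C y * (|K| / t))
    (fun y _ => mul_nonneg (hC y).1.le (div_nonneg (abs_nonneg _) ht.le)) hy

theorem mn_finite (D : CData L Nf ξ₀ y₀ Y) {𝒢 : Subgroup (W ≃ₗ[ℝ] W)}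
    (hL : ∀ g ∈ 𝒢, ∀ x ∈ L, g x ∈ L) (hN : ∀ g ∈ 𝒢, ∀ x ∈ Nf, g x ∈ Nf) (F : Finset W)
    (hF : ∀ a ∈ F, a ∈ L ∧ a ∈ Nf) :
    ∃ M : Set (W ≃ₗ[ℝ] W), M.Finite ∧ ∀ x ∈ cone F, Inn Nf y₀ x →
      (Mn 𝒢 ξ₀ x).Nonempty ∧ Mn 𝒢 ξ₀ x ⊆ M := by
  classical
  have hpiece : ∀ I : Finset W, I ⊆ F → ∃ M : Set (W ≃ₗ[ℝ] W), M.Finite ∧
      (Inn Nf y₀ (∑ a ∈ I, a) → ∀ c : W → ℝ, (∀ a ∈ I, 0 < c a) →
        (Mn 𝒢 ξ₀ (∑ a ∈ I, c a • a)).Nonempty ∧ Mn 𝒢 ξ₀ (∑ a ∈ I, c a • a) ⊆ M) := by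
    intro I hI
    by_cases hv : Inn Nf y₀ (∑ a ∈ I, a)
    swap
    · exact ⟨∅, Set.finite_empty, fun h => absurd h hv⟩
    obtain ⟨T, hT𝒢, hT⟩ := D.exists_dickson 𝒢 hL hN D.xi_int one_pos
      (fun x _ => by rw [one_mul]) I (fun a ha => hF a (hI ha))
    set K : ℝ := ∑ t ∈ T, ξ₀ (t (∑ a ∈ I, a)) with hK
    refine ⟨_, finite_of_inn D hL hN hv K, fun _ c hc => ⟨?_, ?_⟩⟩
    · have hTne : T.Nonempty := by
        obtain ⟨t, ht, -⟩ := hT 1 𝒢.one_mem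
        exact ⟨t, ht⟩
      obtain ⟨t, ht, hmin⟩ := Finset.exists_min_image T
        (fun t : W ≃ₗ[ℝ] W => ξ₀ (t (∑ a ∈ I, c a • a))) hTne
      refine ⟨t, hT𝒢 t ht, fun h hh => ?_⟩
      obtain ⟨t', ht', h1⟩ := hT h hh
      refine (hmin t' ht').trans ?_
      rw [map_sum, map_sum, map_sum, map_sum]
      refine Finset.sum_le_sum fun a ha => ?_
      rw [map_smul, map_smul, map_smul, map_smul, smul_eq_mul, smul_eq_mul]
      exact mul_le_mul_of_nonneg_left (h1 a ha) (hc a ha).le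
    · rintro g ⟨hg, hgm⟩
      obtain ⟨t, ht, h1⟩ := hT g hg
      refine ⟨hg, ?_⟩
      have h2 := hgm t (hT𝒢 t ht)
      rw [map_sum, map_sum, map_sum, map_sum] at h2
      have h3 : ∀ a ∈ I, ξ₀ (t (c a • a)) ≤ ξ₀ (g (c a • a)) := by
        intro a ha
        rw [map_smul, map_smul, map_smul, map_smul, smul_eq_mul, smul_eq_mul]
        exact mul_le_mul_of_nonneg_left (h1 a ha) (hc a ha).le
      have h4 : ∑ a ∈ I, ξ₀ (t (c a • a)) = ∑ a ∈ I, ξ₀ (g (c a • a)) :=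
        le_antisymm (Finset.sum_le_sum h3) h2
      have h5 := (Finset.sum_eq_sum_iff_of_le h3).1 h4
      have h6 : ξ₀ (g (∑ a ∈ I, a)) = ξ₀ (t (∑ a ∈ I, a)) := by
        rw [map_sum, map_sum, map_sum, map_sum]
        refine Finset.sum_congr rfl fun a ha => ?_
        have h7 := h5 a ha
        rw [map_smul, map_smul, map_smul, map_smul, smul_eq_mul, smul_eq_mul] at h7
        exact (mul_left_cancel₀ (hc a ha).ne' h7).symm
      rw [h6]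
      refine Finset.single_le_sum (f := fun t : W ≃ₗ[ℝ] W => ξ₀ (t (∑ a ∈ I, a))) ?_ ht
      intro t ht
      rw [map_sum, map_sum]
      exact Finset.sum_nonneg fun a ha =>
        D.xi_nonneg (hN t (hT𝒢 t ht) _ (hF a (hI ha)).2)
  choose! M hM1 hM2 using hpiece
  refine ⟨⋃ I ∈ (F.powerset : Set (Finset W)), M I, Set.Finite.biUnion (Finset.finite_toSet _)
    (fun I hI => hM1 I (Finset.mem_powerset.1 hI)), ?_⟩
  rintro x ⟨c, hc, hx⟩ ⟨t, ht, hxt⟩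
  set I := F.filter (fun a => 0 < c a) with hI
  have hIF : I ⊆ F := Finset.filter_subset _ _
  have hx' : x = ∑ a ∈ I, c a • a := by
    rw [hx]
    symm
    refine Finset.sum_subset hIF fun a ha haI => ?_
    have h1 : c a = 0 := by
      by_contra hne
      exact haI (Finset.mem_filter.2 ⟨ha, lt_of_le_of_ne (hc a) (Ne.symm hne)⟩)
    rw [h1, zero_smul]
  have hinn : Inn Nf y₀ (∑ a ∈ I, a) := by
    set C : ℝ := ∑ a ∈ I, c a + 1 with hC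
    have hCpos : 0 < C := by
      have : 0 ≤ ∑ a ∈ I, c a := Finset.sum_nonneg fun a _ => hc a
      linarith
    refine ⟨t / C, by positivity, ?_⟩
    have h1 : C • (∑ a ∈ I, a) - x ∈ Nf := by
      rw [hx', Finset.smul_sum, ← Finset.sum_sub_distrib]
      refine D.cone_Nf (S := I) (fun a ha => hF a (hIF ha)) ?_
      refine cone_sum _ _ fun a ha => ?_
      rw [← sub_smul]
      refine cone_smul (mem_cone_self ha) ?_
      have h2 : c a ≤ ∑ a ∈ I, c a := Finset.single_le_sum (f := c) (fun a _ => hc a) ha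
      linarith
    have h3 := D.smul C⁻¹ (inv_nonneg.2 hCpos.le) _ (D.add _ h1 _ hxt)
    have h4 : C⁻¹ • (C • (∑ a ∈ I, a) - x + (x - t • y₀)) = (∑ a ∈ I, a) - (t / C) • y₀ := by
      rw [sub_add_sub_cancel, smul_sub, smul_smul, smul_smul, inv_mul_cancel₀ hCpos.ne', one_smul]
      congr 2
      ring
    rwa [h4] at h3
  obtain ⟨h1, h2⟩ := hM2 I hIF hinn c (fun a ha => (Finset.mem_filter.1 ha).2)
  rw [hx']
  refine ⟨h1, h2.trans ?_⟩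
  exact Set.subset_biUnion_of_mem (u := fun I => M I)
    (Finset.mem_coe.2 (Finset.mem_powerset.2 hIF))

/-- **The Siegel property.** Only finitely many elements of the group map an interior point of the
cone spanned by `F` into this cone. -/
theorem siegel (D : CData L Nf ξ₀ y₀ Y) {𝒢 : Subgroup (W ≃ₗ[ℝ] W)}
    (hL : ∀ g ∈ 𝒢, ∀ x ∈ L, g x ∈ L) (hN : ∀ g ∈ 𝒢, ∀ x ∈ Nf, g x ∈ Nf) (F : Finset W)
    (hF : ∀ a ∈ F, a ∈ L ∧ a ∈ Nf) :
    {g : W ≃ₗ[ℝ] W | g ∈ 𝒢 ∧ ∃ x, x ∈ cone F ∧ Inn Nf y₀ x ∧ g x ∈ cone F}.Finite := by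
  obtain ⟨M, hM, h⟩ := mn_finite D hL hN F hF
  refine (Set.Finite.image2 (fun a b : W ≃ₗ[ℝ] W => a⁻¹ * b) hM hM).subset ?_
  rintro g ⟨hg, x, hx, hxi, hgx⟩
  obtain ⟨-, h1⟩ := h x hx hxi
  obtain ⟨⟨k, hk⟩, h2⟩ := h (g x) hgx (inn_act D hN hg hxi)
  refine ⟨k, h2 hk, k * g, h1 ⟨𝒢.mul_mem hk.1 hg, fun l hl => ?_⟩, by group⟩
  have h3 := hk.2 (l * g⁻¹) (𝒢.mul_mem hl (𝒢.inv_mem hg))
  have h4 : (l * g⁻¹) (g x) = l x := by
    have : (l * g⁻¹) (g x) = (l * g⁻¹ * g) x := rfl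
    rw [this, inv_mul_cancel_right]
  rw [h4] at h3
  exact h3

/-- If the translates of a rational polyhedral cone cover the interior, then they cover the convex
hull of the rational points. -/
theorem closed_cover (D : CData L Nf ξ₀ y₀ Y) {𝒢 : Subgroup (W ≃ₗ[ℝ] W)}
    (hL : ∀ g ∈ 𝒢, ∀ x ∈ L, g x ∈ L) (hN : ∀ g ∈ 𝒢, ∀ x ∈ Nf, g x ∈ Nf) (F : Finset W)
    (hF : ∀ a ∈ F, a ∈ L ∧ a ∈ Nf) (hcov : ∀ x, Inn Nf y₀ x → ∃ g ∈ 𝒢, g x ∈ cone F) {x : W}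
    (hx : x ∈ Cp L Nf) : ∃ g ∈ 𝒢, g x ∈ cone F := by
  classical
  obtain ⟨A, hA, hxA⟩ := hx
  set F' : Finset W := (insert y₀ A) ∪ F with hF'
  have hF'' : ∀ a ∈ F', a ∈ L ∧ a ∈ Nf := by
    intro a ha
    rcases Finset.mem_union.1 ha with h | h
    · rcases Finset.mem_insert.1 h with rfl | h
      · exact ⟨D.y_L, D.y_N⟩
      · exact hA a h
    · exact hF a h
  have hfin := siegel D hL hN F' hF''
  let δ : ℕ → ℝ := fun n => 1 / ((n : ℝ) + 1)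
  have hδpos : ∀ n, 0 < δ n := fun n => by simp only [δ]; positivity
  have hδ : Tendsto δ atTop (𝓝 0) := tendsto_one_div_add_atTop_nhds_zero_nat
  have hxN : x ∈ Nf := D.cone_Nf hA hxA
  have hinn : ∀ n, Inn Nf y₀ (x + δ n • y₀) := fun n =>
    ⟨δ n, hδpos n, by rwa [add_sub_cancel_right]⟩
  have hg : ∀ n, ∃ g ∈ 𝒢, g (x + δ n • y₀) ∈ cone F := fun n => hcov _ (hinn n)
  choose g hg𝒢 hgF using hg
  have hmem : ∀ n, x + δ n • y₀ ∈ cone F' := by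
    intro n
    refine cone_mono Finset.subset_union_left (cone_add (cone_mono (Finset.subset_insert _ _) hxA)
      (cone_smul (mem_cone_self (Finset.mem_insert_self _ _)) (hδpos n).le))
  have hrange : (Set.range g).Finite := hfin.subset (by
    rintro _ ⟨n, rfl⟩
    exact ⟨hg𝒢 n, _, hmem n, hinn n, cone_mono Finset.subset_union_right (hgF n)⟩)
  obtain ⟨h, hh⟩ : ∃ h : W ≃ₗ[ℝ] W, {n | g n = h}.Infinite := by
    by_contra hcon
    push Not at hcon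
    have h1 : (Set.univ : Set ℕ) ⊆ ⋃ h ∈ Set.range g, {n | g n = h} := by
      intro n _
      simp only [Set.mem_iUnion]
      exact ⟨g n, ⟨n, rfl⟩, rfl⟩
    have h2 : (⋃ h ∈ Set.range g, {n | g n = h}).Finite :=
      hrange.biUnion fun h _ => by simpa using hcon h
    exact Set.infinite_univ (h2.subset h1)
  have hh𝒢 : h ∈ 𝒢 := by
    obtain ⟨n, hn⟩ := hh.nonempty
    have hn : g n = h := hn
    rw [← hn]; exact hg𝒢 n
  refine ⟨h, hh𝒢, ?_⟩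
  let S : Finset W := F.filter (· ≠ 0)
  have hSF : ∀ x, x ∈ cone F → x ∈ cone S := by
    intro x hx
    refine cone_le (fun a ha => ?_) hx
    by_cases h : a = 0
    · rw [h]; exact zero_mem_cone S
    · exact mem_cone_self (Finset.mem_filter.2 ⟨ha, h⟩)
  have hSpos : ∀ a ∈ S, 0 < ξ₀ a := fun a ha =>
    D.xi_pos a (hF a (Finset.mem_filter.1 ha).1).2 (Finset.mem_filter.1 ha).2
  let k : ℕ → ℕ := Nat.nth (fun n => g n = h)
  have hk : StrictMono k := Nat.nth_strictMono hh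
  have hkm : ∀ n, g (k n) = h := fun n => Nat.nth_mem_of_infinite hh n
  refine cone_mono (Finset.filter_subset _ _) (cone_closed (S := S) ξ₀ hSpos (p := h x)
    (q := h y₀) (δ := δ ∘ k) (hδ.comp hk.tendsto_atTop) (fun n => ?_))
  have h1 := hSF _ (hgF (k n))
  rw [hkm n, map_add, map_smul] at h1
  exact h1

end Pool.Agent.U201.EC
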