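import Pool.Agent.U201.EC.Gal
import Pool.Agent.X324.CF.Main2

/-!
# The nef cone and the effective nef cone of `X`
-/

set_option autoImplicit false

namespace Pool.Agent.U201.EC

open Finset Filter Topology
open Pool.Agent.W594.SYZ2 Pool.Agent.W594.SYZ2.TQ Pool.Agent.TH735.AQ
open Pool.Agent.X324.CF
open Pool.Agent.Y167 (cone cone_add cone_smul cone_le cone_mono cone_sum mem_cone_self
  zero_mem_cone cone_image cone_ind cone_of_scaled mem_cone_of_sum Rel Pol Cp CData)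

variable {V E R : Type*} [NormedAddCommGroup V] [NormedSpace ℂ V]
  [NormedAddCommGroup E] [NormedSpace ℂ E] [CommRing R] [Algebra ℂ R] {ρ : ℕ}
  {𝒜 : Cl ρ → Submodule ℂ R} {Γ : Grp V R} {j : E →ₗ[ℂ] V} {u : Cl ρ} {H₀ : V → V → ℂ}

variable (𝒜 Γ j u) in
/-- The classes with semidefinite form and nef degree. -/
def KN : Set (N1 𝒜 Γ j) := {a | (∀ e, 0 ≤ ((val a).1 e e).re) ∧ (val a).2 ∈ NefF 𝒜 u}

theorem KN_zero : (0 : N1 𝒜 Γ j) ∈ KN 𝒜 Γ j u := ⟨fun _ => le_refl (0 : ℝ), nefF_zero⟩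

theorem KN_add {a b : N1 𝒜 Γ j} (ha : a ∈ KN 𝒜 Γ j u) (hb : b ∈ KN 𝒜 Γ j u) :
    a + b ∈ KN 𝒜 Γ j u := by
  refine ⟨fun e => ?_, nefF_add ha.2 hb.2⟩
  change 0 ≤ ((val a).1 e e + (val b).1 e e).re
  rw [Complex.add_re]
  exact add_nonneg (ha.1 e) (hb.1 e)

theorem KN_smul {a : N1 𝒜 Γ j} {t : ℝ} (ht : 0 ≤ t) (ha : a ∈ KN 𝒜 Γ j u) :
    t • a ∈ KN 𝒜 Γ j u := by
  refine ⟨fun e => ?_, nefF_smul ht ha.2⟩
  change 0 ≤ (t • (val a).1 e e).re
  rw [Complex.smul_re]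
  exact mul_nonneg ht (ha.1 e)

theorem KN_closed : IsClosed (KN 𝒜 Γ j u) := by
  have hval : Continuous (val : N1 𝒜 Γ j → Pairs E ρ) := continuous_subtype_val
  have h1 : KN 𝒜 Γ j u = (⋂ e : E, {a : N1 𝒜 Γ j | 0 ≤ ((val a).1 e e).re}) ∩
      {a : N1 𝒜 Γ j | (val a).2 ∈ NefF 𝒜 u} := by
    ext a
    simp [KN]
  rw [h1]
  refine IsClosed.inter (isClosed_iInter fun e => ?_) ?_
  · refine isClosed_le continuous_const (Complex.continuous_re.comp ?_)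
    exact (continuous_apply e).comp ((continuous_apply e).comp (continuous_fst.comp hval))
  · exact isClosed_closure.preimage (continuous_snd.comp hval)

/-- The convergence of `a + ε b` to `a`. -/
theorem tends (a b : N1 𝒜 Γ j) :
    Tendsto (fun k : ℕ => a + (1 / ((k : ℝ) + 1)) • b) atTop (𝓝 a) := by
  have hind : Topology.IsInducing (val : N1 𝒜 Γ j → Pairs E ρ) :=
    Topology.IsInducing.subtypeVal
  rw [hind.tendsto_nhds_iff]
  have h3 : (val : N1 𝒜 Γ j → Pairs E ρ) ∘ (fun k : ℕ => a + (1 / ((k : ℝ) + 1)) • b)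
      = fun k : ℕ => val a + (1 / ((k : ℝ) + 1)) • val b := rfl
  rw [h3]
  have h4 : Tendsto (fun k : ℕ => (1 / ((k : ℝ) + 1)) • val b) atTop (𝓝 ((0 : ℝ) • val b)) :=
    (tendsto_one_div_add_atTop_nhds_zero_nat (𝕜 := ℝ)).smul_const _
  rw [zero_smul] at h4
  have h5 := h4.const_add (val a)
  rwa [add_zero] at h5

/-- Classes of degree in a cone spanned by invariant classes, and with form zero. -/
theorem i2_hull' {n : ℕ} {w : Fin n → Cl ρ} (D : Base 𝒜 w) (hQ : IsQuotient 𝒜 u Γ)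
    {P : Set (N1 𝒜 Γ j)} {Q : Cl ρ → Prop}
    (hP : ∀ β, X324.CF.Inv 𝒜 Γ β → Q β → ∃ M : ℕ, 0 < M ∧ ∃ a ∈ P, val a = (0, (M : ℝ) • rv β))
    {b : Bs 𝒜 Γ} (hb : b.1 ∈ coneHull {a | ∃ β, (X324.CF.Inv 𝒜 Γ β ∧ Q β) ∧ a = rv β}) :
    (i2 D hQ b : N1 𝒜 Γ j) ∈ coneHull P := by
  classical
  have h1 : ∀ b, b ∈ coneHull {a : Fin ρ → ℝ | ∃ β, (X324.CF.Inv 𝒜 Γ β ∧ Q β) ∧ a = rv β} →
      ∃ a : N1 𝒜 Γ j, a ∈ coneHull P ∧ val a = (0, b) := by
    intro b hb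
    refine hull_ind (p := fun b => ∃ a : N1 𝒜 Γ j, a ∈ coneHull P ∧ val a = (0, b)) ?_ ?_ ?_ ?_ hb
    · exact ⟨0, hull_zero, rfl⟩
    · rintro b c ⟨a, ha, h1⟩ ⟨a', ha', h2⟩
      refine ⟨a + a', hull_add ha ha', ?_⟩
      change val a + val a' = _
      rw [h1, h2, Prod.mk_add_mk, add_zero]
    · rintro t b ht ⟨a, ha, h1⟩
      refine ⟨t • a, hull_smul ht ha, ?_⟩
      change t • val a = _
      rw [h1, Prod.smul_mk, smul_zero]
    · rintro s ⟨β, ⟨hβ, hq⟩, rfl⟩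
      obtain ⟨M, hM, a, ha, h3⟩ := hP β hβ hq
      have hMr : (0 : ℝ) < M := by exact_mod_cast hM
      refine ⟨(M : ℝ)⁻¹ • a, hull_smul (inv_nonneg.2 hMr.le) (hull_mem ha), ?_⟩
      change (M : ℝ)⁻¹ • val a = _
      rw [h3, Prod.smul_mk, smul_zero, smul_smul, inv_mul_cancel₀ hMr.ne', one_smul]
  obtain ⟨a, ha, h2⟩ := h1 b.1 hb
  have h3 : i2 D hQ b = a := by
    apply val_ext
    rw [h2, val_i2]
  rw [h3]
  exact ha

theorem cp_hull {W : Type*} [AddCommGroup W] [Module ℝ W] (L : AddSubgroup W) (Nf : Set W) :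
    Cp L Nf = coneHull {a | a ∈ L ∧ a ∈ Nf} := by
  ext x
  exact Iff.rfl

variable [IsDomain R] [GradedAlgebra 𝒜]

omit [IsDomain R] in
/-- The semiample classes of `F` which are invariant give semiample classes of `X`. -/
theorem deg_semi (F : IsConeVariety 𝒜 u) (hQ : IsQuotient 𝒜 u Γ) {β : Cl ρ}
    (hβ : X324.CF.Inv 𝒜 Γ β) (h : SemiampleF 𝒜 u β) : ∃ M : ℕ, 0 < M ∧
      ∃ a ∈ semiample 𝒜 Γ j u, val a = (0, (M : ℝ) • rv β) := by
  classical
  have := hQ.fin_gal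
  have : Fintype (gal Γ) := Fintype.ofFinite _
  obtain ⟨m, hm, h1⟩ := h
  obtain ⟨a, ha1, ha2⟩ := exists_degclass (j := j) F.base hQ hβ m
  refine ⟨Nat.card (gal Γ) * m, Nat.mul_pos Nat.card_pos hm, a,
    ⟨_, ha1, 1, one_pos, fun v p hp => ?_⟩, ha2⟩
  obtain ⟨r, hr, hr0⟩ := exists_nonvanish (K := gal Γ) (𝒜 := 𝒜) (β := m • β) (p := p) fun φ =>
    h1 _ (semistable_comp hQ hp φ.2)
  exact ⟨_, Sheaf.pow_one_section (ofDeg_section hr), hr0⟩

/-- The effective classes of `F` which are invariant give effective classes of `X`. -/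
theorem deg_eff (F : IsConeVariety 𝒜 u) (hQ : IsQuotient 𝒜 u Γ) {β : Cl ρ}
    (hβ : X324.CF.Inv 𝒜 Γ β) (h : rv β ∈ NefF 𝒜 u) : ∃ M : ℕ, 0 < M ∧
      ∃ a ∈ effective 𝒜 Γ j, val a = (0, (M : ℝ) • rv β) := by
  classical
  have := hQ.fin_gal
  have : Fintype (gal Γ) := Fintype.ofFinite _
  obtain ⟨m, hm, r, hr, hr0⟩ := nef_mult F h
  obtain ⟨a, ha1, ha2⟩ := exists_degclass (j := j) F.base hQ hβ m
  exact ⟨Nat.card (gal Γ) * m, Nat.mul_pos Nat.card_pos hm, a,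
    ⟨_, _, ha1, ofDeg_section hr, 0, nrm_ne_zero hr0⟩, ha2⟩

omit [IsDomain R] in
theorem i2_semi (F : IsConeVariety 𝒜 u) (hQ : IsQuotient 𝒜 u Γ) {b : Bs 𝒜 Γ}
    (hb : Inn (NefF 𝒜 u) (rv u) b.1) :
    (i2 F.base hQ b : N1 𝒜 Γ j) ∈ coneHull (semiample 𝒜 Γ j u) := by
  classical
  have := hQ.fin_gal
  have : Fintype (gal Γ) := Fintype.ofFinite _
  refine i2_hull' F.base hQ (Q := fun β => SemiampleF 𝒜 u β)
    (fun β hβ h => deg_semi F hQ hβ h) ?_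
  exact avg_hull F.base hQ (fun β hβ => SemiampleF.sum _ _ fun φ _ =>
    semiampleF_act (isAut_sg hQ φ) hβ) b.2 (inn_hull F hb)

variable [FiniteDimensional ℂ V] [FiniteDimensional ℂ E]

omit [FiniteDimensional ℂ E] in
theorem semi_sub (F : IsConeVariety 𝒜 u) (hQ : IsQuotient 𝒜 u Γ) :
    semiample 𝒜 Γ j u ⊆ KN 𝒜 Γ j u := by
  rintro a ⟨𝓛, hc, m, hm, h1⟩
  have hmr : (0 : ℝ) < m := by exact_mod_cast hm
  have h3 : (val a).2 = rv 𝓛.deg := funext hc.2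
  refine ⟨fun e => ?_, ?_⟩
  · obtain ⟨p, hp⟩ := F.point
    obtain ⟨f, hf, hf0⟩ := h1 0 p hp
    obtain ⟨⟨H, hH, h2⟩, -⟩ := hc
    have h4 := Sheaf.nef_of_section hQ (Sheaf.chern_pow hH m) hf.sec ⟨0, fun h => hf0 (by
      rw [h, map_zero])⟩ (j e)
    have e2 : (m : ℂ) = ((m : ℝ) : ℂ) := by push_cast; rfl
    rw [e2, Complex.re_ofReal_mul] at h4
    rw [h2]
    exact nonneg_of_mul_nonneg_right h4 hmr
  · rw [h3]
    refine subset_closure (hull_mem ⟨_, ⟨m, hm, fun p hp => ?_⟩, rfl⟩)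
    obtain ⟨f, hf, hf0⟩ := h1 0 p hp
    exact ⟨f 0, hf.mem 0, hf0⟩

/-- Interior classes are combinations of semiample classes. -/
theorem inn_semi (F : IsConeVariety 𝒜 u) (hQ : IsQuotient 𝒜 u Γ) (Rl : Rel (base Γ) j H₀)
    {a : N1 𝒜 Γ j} {t : ℝ} (ht : 0 < t) (h : ∀ e, t * (H₀ (j e) (j e)).re ≤ ((val a).1 e e).re)
    (hi : Inn (NefF 𝒜 u) (rv u) (val a).2) : a ∈ coneHull (semiample 𝒜 Γ j u) := by
  rw [← split F.base hQ a]
  exact hull_add (i1_hull (fun _ hs _ ha => bpf_semiample hs ha) (interior_form Rl ht h))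
    (i2_semi F hQ hi)

theorem closure_eqN (F : IsConeVariety 𝒜 u) (hQ : IsQuotient 𝒜 u Γ) (Rl : Rel (base Γ) j H₀) :
    nefCone 𝒜 Γ j u = KN 𝒜 Γ j u := by
  apply Set.Subset.antisymm
  · exact closure_minimal (fun _ ha => hull_ind (p := fun a => a ∈ KN 𝒜 Γ j u) KN_zero
      (fun _ _ h1 h2 => KN_add h1 h2) (fun _ _ ht h => KN_smul ht h)
      (fun a ha => semi_sub F hQ ha) ha) KN_closed
  · intro a ha
    obtain ⟨y, hy, hy'⟩ := Pool.Agent.Y167.exists_ample Rl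
    let y₀ : N1 𝒜 Γ j := i1 y + i2 F.base hQ ⟨rv u, Submodule.subset_span ⟨u, hQ.inv, rfl⟩⟩
    have key : ∀ ε : ℝ, 0 < ε → a + ε • y₀ ∈ coneHull (semiample 𝒜 Γ j u) := by
      intro ε hε
      refine inn_semi F hQ Rl hε (fun e => ?_) ⟨ε, hε, ?_⟩
      · have h1 : (val (a + ε • y₀)).1 e e = (val a).1 e e + ε • H₀ (j e) (j e) := by
          change (val a).1 e e + ε • (y.1 e e + 0) = _
          rw [add_zero, hy']
        rw [h1, Complex.add_re, Complex.smul_re, smul_eq_mul]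
        linarith [ha.1 e]
      · have h1 : (val (a + ε • y₀)).2 = (val a).2 + ε • rv u := by
          change (val a).2 + ε • ((0 : Fin ρ → ℝ) + rv u) = _
          rw [zero_add]
        rw [h1, add_sub_cancel_right]
        exact ha.2
    exact mem_closure_of_tendsto (tends a y₀) (Eventually.of_forall fun k => key _ (by positivity))

omit [FiniteDimensional ℂ V] [FiniteDimensional ℂ E] [IsDomain R] [GradedAlgebra 𝒜] in
theorem eff_deg {a : N1 𝒜 Γ j} (ha : a ∈ effCone 𝒜 Γ j) : (val a).2 ∈ EffF 𝒜 := by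
  refine hull_ind (p := fun a : N1 𝒜 Γ j => (val a).2 ∈ EffF 𝒜) ?_ ?_ ?_ ?_ ha
  · exact hull_zero
  · intro a b h1 h2
    exact hull_add h1 h2
  · intro t a ht h
    exact hull_smul ht h
  · rintro a ⟨𝓛, f, hc, hf, v, hv⟩
    have h3 : (val a).2 = rv 𝓛.deg := funext hc.2
    rw [h3]
    exact hull_mem ⟨_, ⟨_, hf.mem v, hv⟩, rfl⟩

omit [IsDomain R] [FiniteDimensional ℂ V] in
/-- Invariant classes in `Nef(F) ∩ Eff(F)` are combinations of invariant integral nef classes. -/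
theorem nefeff_hull (F : IsConeVariety 𝒜 u) (hQ : IsQuotient 𝒜 u Γ) {b : Fin ρ → ℝ}
    (hb : b ∈ Bs 𝒜 Γ) (h : b ∈ NefF 𝒜 u ∩ EffF 𝒜) :
    b ∈ coneHull {a | ∃ β, (X324.CF.Inv 𝒜 Γ β ∧ rv β ∈ NefF 𝒜 u) ∧ a = rv β} := by
  classical
  have := hQ.fin_gal
  have : Fintype (gal Γ) := Fintype.ofFinite _
  obtain ⟨P, hP, hcov⟩ := F.cone
  obtain ⟨φ, σ, h1, h2⟩ := hcov b h
  refine avg_hull F.base hQ (P := fun β => rv β ∈ NefF 𝒜 u) (fun β hβ => ?_) hb ?_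
  · rw [rv_sum]
    refine Finset.sum_induction _ (fun x => x ∈ NefF 𝒜 u) (fun _ _ => nefF_add) nefF_zero
      fun φ _ => ?_
    rw [← rs_rv]
    exact nefF_act (isAut_sg hQ φ) hβ
  · have h3 : b = rl σ.symm (rs σ b) := by
      change b = rs σ.symm (rs σ b)
      rw [rs_symm]
      exact ((rs σ).symm_apply_apply b).symm
    rw [h3]
    refine hull_map (P := {a | a ∈ P}) (fun a ha => ?_) ⟨P, fun a ha => ha, h2⟩
    obtain ⟨⟨β, rfl⟩, h4, -⟩ := hP a ha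
    refine hull_mem ⟨σ.symm β, ?_, rl_rv _ _⟩
    rw [← rs_rv]
    exact nefF_act (isAut_inv h1) h4

/-- The effective nef cone is the convex hull of the rational nef classes. -/
theorem cp_eqN (F : IsConeVariety 𝒜 u) (hQ : IsQuotient 𝒜 u Γ)
    (Rl : Rel (base Γ) j H₀) : nefEff 𝒜 Γ j u = Cp (intL 𝒜 Γ j) (KN 𝒜 Γ j u) := by
  classical
  have hexp := expo_pos hQ
  have hexpr : (0 : ℝ) < expo Γ := by exact_mod_cast hexp
  have := hQ.fin_gal
  have hcard : (0 : ℝ) < Nat.card (gal Γ) := by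
    have : 0 < Nat.card (gal Γ) := Nat.card_pos
    exact_mod_cast this
  have hcl := closure_eqN F hQ Rl
  rw [cp_hull]
  apply Set.Subset.antisymm
  · rintro a ⟨haK, haE⟩
    rw [hcl] at haK
    rw [← split F.base hQ a]
    refine hull_add ?_ ?_
    · refine hull_ind (p := fun a => (i1 (p1 hQ a) : N1 𝒜 Γ j) ∈
        coneHull {a | a ∈ intL 𝒜 Γ j ∧ a ∈ KN 𝒜 Γ j u}) ?_ ?_ ?_ ?_ haE
      · rw [map_zero, map_zero]
        exact hull_zero
      · intro a b h1 h2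
        rw [map_add, map_add]
        exact hull_add h1 h2
      · intro t a ht h1
        rw [map_smul, map_smul]
        exact hull_smul ht h1
      · intro a ha
        have h2 : Pool.Agent.Y167.Integral ((expo Γ : ℝ) • p1 hQ a) := by
          obtain ⟨𝓛, f, hc, -⟩ := ha
          exact ⟨_, isClass_toLB hQ hc⟩
        refine hull_scaled hexpr ⟨?_, ?_⟩
        · rw [← map_smul]
          exact Int.i1 h2
        · have h5 : ∀ e, 0 ≤ ((val a).1 e e).re := effective_form hQ ha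
          exact KN_smul hexpr.le ⟨h5, nefF_zero⟩
    · refine i2_hull' F.base hQ (Q := fun β => rv β ∈ NefF 𝒜 u) (fun β hβ h => ?_)
        (nefeff_hull F hQ (p2 a).2 ⟨haK.2, eff_deg haE⟩)
      have hb : rv β ∈ Bs 𝒜 Γ := Submodule.subset_span ⟨β, hβ, rfl⟩
      refine ⟨Nat.card (gal Γ), Nat.card_pos, _,
        ⟨Int.i2 F.base hQ (b := ⟨rv β, hb⟩) hβ rfl, ?_⟩, ?_⟩
      · exact KN_smul hcard.le ⟨fun e => le_refl (0 : ℝ), h⟩
      · rw [← map_smul, val_i2]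
        rfl
  · intro a ha
    refine ⟨?_, ?_⟩
    · rw [hcl]
      exact hull_ind (p := fun a => a ∈ KN 𝒜 Γ j u) KN_zero
        (fun _ _ h1 h2 => KN_add h1 h2) (fun _ _ ht h => KN_smul ht h) (fun a ha => ha.2) ha
    · refine hull_le (fun a ha => ?_) ha
      rw [← split F.base hQ a]
      refine hull_add ?_ ?_
      · have h1 := nef_form Rl (Int.p1 hQ ha.1) (Pool.Agent.Y167.nef_smul hexpr.le ha.2.1)
        have h2 := i1_hull (P := effective 𝒜 Γ j) (fun L hs a ha => bpf_effective hs ha) h1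
        rw [map_smul] at h2
        have h3 := hull_smul (inv_nonneg.2 hexpr.le) h2
        rwa [smul_smul, inv_mul_cancel₀ hexpr.ne', one_smul] at h3
      · obtain ⟨β, hβ, h4⟩ := Int.p2 ha.1
        refine i2_hull' F.base hQ (Q := fun β => rv β ∈ NefF 𝒜 u)
          (fun β hβ h => deg_eff F hQ hβ h) (hull_mem ⟨β, ⟨hβ, ?_⟩, h4⟩)
        rw [← h4]
        exact ha.2.2

end Pool.Agent.U201.EC
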