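import Pool.Agent.U201.EC.Cones

/-!
# The cone theorem
-/

set_option autoImplicit false

namespace Pool.Agent.U201.EC

open Finset Filter Topology
open Pool.Agent.W594.SYZ2 Pool.Agent.W594.SYZ2.TQ Pool.Agent.TH735.AQ
open Pool.Agent.X324.CF
open Pool.Agent.Y167 (cone cone_add cone_smul cone_le cone_mono cone_sum mem_cone_self
  zero_mem_cone cone_image cone_ind cone_of_scaled mem_cone_of_sum Rel Pol Cp CData)
open Pool.Agent.Y167.CC (LinGrp Preserves IsFundDomain)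

variable {V E R : Type*} [NormedAddCommGroup V] [NormedSpace ℂ V]
  [NormedAddCommGroup E] [NormedSpace ℂ E] [CommRing R] [Algebra ℂ R] {ρ : ℕ}
  {𝒜 : Cl ρ → Submodule ℂ R} {Γ : Grp V R} {j : E →ₗ[ℂ] V} {u : Cl ρ} {H₀ : V → V → ℂ}

section Auto

variable [GradedAlgebra 𝒜] {n : ℕ} {w : Fin n → Cl ρ}

/-- An automorphism which commutes with the finite group up to scalars acts on the classes by an
automorphism which commutes with the action of the group. -/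
theorem comm_act (D : Base 𝒜 w) (hQ : IsQuotient 𝒜 u Γ) {φ : R ≃ₐ[ℂ] R} {σ : Cl ρ ≃+ Cl ρ}
    (h : Induces 𝒜 φ σ) (hc : ∀ ψ : gal Γ, ∃ s ∈ Scal 𝒜, φ * ψ.1 * φ⁻¹ = ψ.1 * s) (ψ : gal Γ) :
    rs (sg hQ ψ) * rs σ = rs σ * rs (sg hQ ψ) := by
  obtain ⟨s', hs', e6⟩ := hc ψ
  have h7 : Induces 𝒜 (φ * ψ.1 * φ⁻¹) (σ.symm.trans ((sg hQ ψ).trans σ)) :=
    induces_mul (induces_mul h (sg_spec hQ ψ)) (induces_inv h)
  rw [e6] at h7
  have h8 := induces_unique D h7 (induces_mul (sg_spec hQ ψ) (scal_induces hs'))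
  have h9 : rs (sg hQ ψ) = rs σ * rs (sg hQ ψ) * (rs σ)⁻¹ := by
    rw [← rs_symm, ← rs_trans, ← rs_trans, h8]
    congr 1
  conv_lhs => rw [h9]
  group

theorem bs_act (D : Base 𝒜 w) (hQ : IsQuotient 𝒜 u Γ) {φ : R ≃ₐ[ℂ] R} {σ : Cl ρ ≃+ Cl ρ}
    (h : Induces 𝒜 φ σ) (hc : ∀ ψ : gal Γ, ∃ s ∈ Scal 𝒜, φ * ψ.1 * φ⁻¹ = ψ.1 * s)
    {b : Fin ρ → ℝ} (hb : b ∈ Bs 𝒜 Γ) : rs σ b ∈ Bs 𝒜 Γ ∧ rs σ.symm b ∈ Bs 𝒜 Γ := by
  classical
  have := hQ.fin_gal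
  have : Fintype (gal Γ) := Fintype.ofFinite _
  refine ⟨Bs_of_fixed D hQ fun ψ => ?_, Bs_of_fixed D hQ fun ψ => ?_⟩
  · have h1 := LinearEquiv.congr_fun (comm_act D hQ h hc ψ) b
    have h2 : rs (sg hQ ψ) (rs σ b) = rs σ (rs (sg hQ ψ) b) := h1
    rw [h2, Bs_fixed hQ hb]
  · have h1 := LinearEquiv.congr_fun (comm_act D hQ h hc ψ) (rs σ.symm b)
    have h2 : rs (sg hQ ψ) (rs σ (rs σ.symm b)) = rs σ (rs (sg hQ ψ) (rs σ.symm b)) := h1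
    have h3 : rs σ (rs σ.symm b) = b := by
      rw [rs_symm]
      exact (rs σ).apply_symm_apply b
    rw [h3, Bs_fixed hQ hb] at h2
    apply (rs σ).injective
    rw [← h2, h3]

/-- The pullback by an automorphism of `F` which commutes with the finite group up to scalars. -/
theorem exists_pullF (D : Base 𝒜 w) (hQ : IsQuotient 𝒜 u Γ) {φ : R ≃ₐ[ℂ] R} {σ : Cl ρ ≃+ Cl ρ}
    (h : Induces 𝒜 φ σ) (hc : ∀ ψ : gal Γ, ∃ s ∈ Scal 𝒜, φ * ψ.1 * φ⁻¹ = ψ.1 * s) :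
    ∃ G : N1 𝒜 Γ j ≃ₗ[ℝ] N1 𝒜 Γ j,
      (∀ a, (val (G a)).1 = (val a).1) ∧ ∀ a, (val (G a)).2 = rs σ (val a).2 := by
  let ζ : Bs 𝒜 Γ ≃ₗ[ℝ] Bs 𝒜 Γ :=
    { toFun := fun b => ⟨rs σ b.1, (bs_act D hQ h hc b.2).1⟩
      map_add' := fun a b => Subtype.ext (map_add (rs σ) a.1 b.1)
      map_smul' := fun t a => Subtype.ext (map_smul (rs σ) t a.1)
      invFun := fun b => ⟨rs σ.symm b.1, (bs_act D hQ h hc b.2).2⟩
      left_inv := fun b => Subtype.ext (by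
        change rs σ.symm (rs σ b.1) = b.1
        rw [rs_symm]
        exact (rs σ).symm_apply_apply b.1)
      right_inv := fun b => Subtype.ext (by
        change rs σ (rs σ.symm b.1) = b.1
        rw [rs_symm]
        exact (rs σ).apply_symm_apply b.1) }
  let G : N1 𝒜 Γ j ≃ₗ[ℝ] N1 𝒜 Γ j := ((eqv D hQ).trans
    (LinearEquiv.prodCongr (LinearEquiv.refl ℝ _) ζ)).trans (eqv D hQ).symm
  have hG : ∀ a, G a = i1 (p1 hQ a) + i2 D hQ (ζ (p2 a)) := fun a => rfl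
  refine ⟨G, fun a => ?_, fun a => ?_⟩
  · rw [hG]
    change (val a).1 + 0 = _
    rw [add_zero]
  · rw [hG]
    change (0 : Fin ρ → ℝ) + rs σ (val a).2 = _
    rw [zero_add]

omit [GradedAlgebra 𝒜] in
theorem descends_of_norm {f : V ≃ᵃ[ℂ] V} (h : Normalizes Γ f) : Descends 𝒜 Γ f 1 := by
  intro γ hγ
  refine ⟨⟨1, (Scal 𝒜).one_mem, ?_⟩, 1, (Scal 𝒜).one_mem, ?_⟩
  · have h1 : ((1 : V ≃ᵃ[ℂ] V), (1 : R ≃ₐ[ℂ] R)) = 1 := rfl
    rw [h1, mul_one]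
    exact (h γ).1 hγ
  · have h1 : ((1 : V ≃ᵃ[ℂ] V), (1 : R ≃ₐ[ℂ] R)) = 1 := rfl
    rw [h1, mul_one]
    refine (h _).2 ?_
    have h2 : (f, (1 : R ≃ₐ[ℂ] R)) * ((f, 1)⁻¹ * γ * (f, 1)) * (f, 1)⁻¹ = γ := by group
    rw [h2]
    exact hγ

theorem descends_of_comm {φ : R ≃ₐ[ℂ] R} {σ : Cl ρ ≃+ Cl ρ} (h : Induces 𝒜 φ σ)
    (hc : ∀ ψ : gal Γ, ∃ s ∈ Scal 𝒜, φ * ψ.1 * φ⁻¹ = ψ.1 * s) : Descends 𝒜 Γ 1 φ⁻¹ := by
  intro γ hγ
  obtain ⟨s, hs, h1⟩ := hc ⟨γ.2, mem_gal hγ⟩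
  have h1' : φ * γ.2 * φ⁻¹ = γ.2 * s := h1
  refine ⟨⟨φ⁻¹ * s * φ, ?_, ?_⟩, s⁻¹, (Scal 𝒜).inv_mem hs, ?_⟩
  · have h2 := scal_conj (induces_inv h) hs
    rwa [inv_inv] at h2
  · have h3 : ((1 : V ≃ᵃ[ℂ] V), φ⁻¹) * γ * (1, φ⁻¹)⁻¹ * (1, φ⁻¹ * s * φ) = γ := by
      refine Prod.ext ?_ ?_
      · change 1 * γ.1 * 1⁻¹ * 1 = γ.1
        group
      · change φ⁻¹ * γ.2 * (φ⁻¹)⁻¹ * (φ⁻¹ * s * φ) = γ.2
        have h4 : φ⁻¹ * γ.2 * (φ⁻¹)⁻¹ * (φ⁻¹ * s * φ) = φ⁻¹ * (γ.2 * s) * φ := by group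
        rw [h4, ← h1']
        group
    rw [h3]
    exact hγ
  · have h3 : ((1 : V ≃ᵃ[ℂ] V), φ⁻¹)⁻¹ * γ * (1, φ⁻¹) * (1, s⁻¹) = γ := by
      refine Prod.ext ?_ ?_
      · change 1⁻¹ * γ.1 * 1 * 1 = γ.1
        group
      · change (φ⁻¹)⁻¹ * γ.2 * φ⁻¹ * s⁻¹ = γ.2
        have h4 : (φ⁻¹)⁻¹ * γ.2 * φ⁻¹ * s⁻¹ = (φ * γ.2 * φ⁻¹) * s⁻¹ := by group
        rw [h4, h1']
        group
    rw [h3]
    exact hγ

end Auto

variable [FiniteDimensional ℂ V] [FiniteDimensional ℂ E] [IsDomain R] [GradedAlgebra 𝒜]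

omit [FiniteDimensional ℂ E] in
/-- Semiample classes have effective multiples. -/
theorem semi_effX (F : IsConeVariety 𝒜 u) {a : N1 𝒜 Γ j} (ha : a ∈ semiample 𝒜 Γ j u) :
    a ∈ effCone 𝒜 Γ j := by
  obtain ⟨𝓛, ⟨⟨H, hH, h2⟩, h3⟩, m, hm, h1⟩ := ha
  have hmr : (0 : ℝ) < m := by exact_mod_cast hm
  obtain ⟨p, hp⟩ := F.point
  obtain ⟨f, hf, hf0⟩ := h1 0 p hp
  refine hull_scaled hmr ⟨𝓛.pow m, f, ⟨⟨_, Sheaf.chern_pow hH m, fun v w => ?_⟩, fun i => ?_⟩,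
    hf.sec, 0, fun h => hf0 (by rw [h, map_zero])⟩
  · change (m : ℝ) • (val a).1 v w = (m : ℂ) * H (j v) (j w)
    rw [h2, Complex.real_smul]
    push_cast
    rfl
  · change (m : ℝ) • (val a).2 i = ((m • 𝓛.deg) i : ℤ)
    rw [h3, smul_eq_mul, Pi.smul_apply, nsmul_eq_mul]
    push_cast
    rfl

/-- **The cone theorem for `(A × F) / G`.** -/
theorem core' (F : IsConeVariety 𝒜 u) (hQ : IsQuotient 𝒜 u Γ) (Rl : Rel (base Γ) j H₀)
    (𝒢 : LinGrp (N1 𝒜 Γ j)) (h𝒢 : IsAutGroup u 𝒢) :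
    ∃ S : Finset (N1 𝒜 Γ j), ↑S ⊆ integral 𝒜 Γ j ∧ cone S ⊆ nefEff 𝒜 Γ j u ∧
      IsFundDomain 𝒢 (nefEff 𝒜 Γ j u) (cone S) := by
  classical
  have D := F.base
  have hcp := cp_eqN F hQ Rl
  have hexp := expo_pos hQ
  have hexpr : (0 : ℝ) < expo Γ := by exact_mod_cast hexp
  have := hQ.fin_gal
  have hcard : 0 < Nat.card (gal Γ) := Nat.card_pos
  have hcardr : (0 : ℝ) < Nat.card (gal Γ) := by exact_mod_cast hcard
  -- the data for the form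
  let M1 : AddSubgroup (Pool.Agent.Y167.N1 (base Γ) j) :=
    { carrier := {a | Pool.Agent.Y167.Integral ((expo Γ : ℝ) • a)}
      add_mem' := fun {a b} ha hb => by
        change Pool.Agent.Y167.Integral ((expo Γ : ℝ) • (a + b))
        rw [smul_add]
        exact ha.add hb
      zero_mem' := by
        change Pool.Agent.Y167.Integral ((expo Γ : ℝ) • 0)
        rw [smul_zero]
        exact Pool.Agent.Y167.Integral.zero
      neg_mem' := fun {a} ha => by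
        change Pool.Agent.Y167.Integral ((expo Γ : ℝ) • (-a))
        rw [smul_neg]
        exact ha.neg }
  have hnat : ∀ (k : ℕ) (a : Pool.Agent.Y167.N1 (base Γ) j), Pool.Agent.Y167.Integral a →
      Pool.Agent.Y167.Integral ((k : ℝ) • a) := by
    intro k a ha
    have h1 := (Pool.Agent.Y167.intL (base Γ) j).nsmul_mem ha k
    rw [← Nat.cast_smul_eq_nsmul ℝ] at h1
    exact h1
  obtain ⟨ξ1, y1, Y1, D1, hy1⟩ := Pool.Agent.Y167.exists_cdata Rl M1 hexp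
    (fun a ha => hnat _ _ (hnat _ _ ha)) (fun a ha => ha)
  set y2 : Bs 𝒜 Γ := ⟨rv u, Submodule.subset_span ⟨u, hQ.inv, rfl⟩⟩ with hy2
  obtain ⟨ξ2, Y2, D2⟩ := cdata_of F (Bs 𝒜 Γ).subtype Subtype.val_injective (y₀ := y2) rfl
    (L' := L2 𝒜 Γ) ⟨u, hQ.inv, rfl⟩ (fun x hx => by
      obtain ⟨β, -, h⟩ := hx
      exact ⟨β, h⟩) span_L2
  have hk : 0 < expo Γ * Nat.card (gal Γ) := Nat.mul_pos hexp hcard
  have hnatI : ∀ (k : ℕ) (a : N1 𝒜 Γ j), a ∈ integral 𝒜 Γ j → (k : ℝ) • a ∈ integral 𝒜 Γ j := by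
    intro k a ha
    have h1 := (intL 𝒜 Γ j).nsmul_mem ha k
    rw [← Nat.cast_smul_eq_nsmul ℝ] at h1
    exact h1
  obtain ⟨ξ₀, Y, DD⟩ := cdata_prod (L := intL 𝒜 Γ j) D1 D2 (p1 hQ) p2 i1 (i2 D hQ)
    (fun a => p1_i1 hQ a) (fun a => p2_i1 a) (fun b => p1_i2 D hQ b) (fun b => p2_i2 D hQ b)
    (fun a => split D hQ a) hk
    (fun a ha => Int.p1 hQ ha)
    (fun a ha => by
      obtain ⟨β, hβ, h1⟩ := Int.p2 ha
      exact ⟨β, hβ, h1⟩)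
    (fun a ha => by
      have h1 : ((expo Γ * Nat.card (gal Γ) : ℕ) : ℝ) • (i1 a : N1 𝒜 Γ j)
          = (Nat.card (gal Γ) : ℝ) • i1 ((expo Γ : ℝ) • a) := by
        rw [map_smul, smul_smul]
        push_cast
        rw [mul_comm]
      rw [h1]
      exact hnatI _ _ (Int.i1 ha))
    (fun b hb => by
      obtain ⟨β, hβ, h2⟩ := hb
      have h1 : ((expo Γ * Nat.card (gal Γ) : ℕ) : ℝ) • (i2 D hQ b : N1 𝒜 Γ j)
          = (expo Γ : ℝ) • ((Nat.card (gal Γ) : ℝ) • i2 D hQ b) := by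
        rw [smul_smul]
        push_cast
        rfl
      rw [h1]
      exact hnatI _ _ (Int.i2 D hQ hβ h2))
  have hset : {a : N1 𝒜 Γ j | p1 hQ a ∈ Pool.Agent.Y167.nefCone (base Γ) j ∧
      p2 a ∈ {b : Bs 𝒜 Γ | (Bs 𝒜 Γ).subtype b ∈ NefF 𝒜 u}} = KN 𝒜 Γ j u := rfl
  rw [hset] at DD
  set y₀ : N1 𝒜 Γ j := ((expo Γ * Nat.card (gal Γ) : ℕ) : ℝ) • (i1 y1 + i2 D hQ y2) with hy₀
  have hkr : (0 : ℝ) < ((expo Γ * Nat.card (gal Γ) : ℕ) : ℝ) := by exact_mod_cast hk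
  -- form and degree of the interior point
  set K₁ : ℝ := ((expo Γ * Nat.card (gal Γ) : ℕ) : ℝ) * expo Γ with hK₁
  have hK₁pos : 0 < K₁ := mul_pos hkr hexpr
  have hyf : ∀ e, ((val y₀).1 e e).re = K₁ * (H₀ (j e) (j e)).re := by
    intro e
    have h1 : (val y₀).1 e e = ((expo Γ * Nat.card (gal Γ) : ℕ) : ℝ) • (y1.1 e e + 0) := rfl
    have e1 : (expo Γ : ℂ) = ((expo Γ : ℝ) : ℂ) := by push_cast; rfl
    rw [h1, add_zero, hy1, Complex.smul_re, e1, Complex.re_ofReal_mul, smul_eq_mul, hK₁]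
    ring
  have hyd : (val y₀).2 = ((expo Γ * Nat.card (gal Γ) : ℕ) : ℝ) • rv u := by
    change ((expo Γ * Nat.card (gal Γ) : ℕ) : ℝ) • ((0 : Fin ρ → ℝ) + rv u) = _
    rw [zero_add]
  have hform : ∀ (a b : N1 𝒜 Γ j) (t : ℝ) (e : E), ((val (a + t • b)).1 e e).re
      = ((val a).1 e e).re + t * ((val b).1 e e).re := by
    intro a b t e
    change ((val a).1 e e + t • (val b).1 e e).re = _
    rw [Complex.add_re, Complex.smul_re, smul_eq_mul]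
  -- the interior
  have hint2 : ∀ a : N1 𝒜 Γ j, (∃ t : ℝ, 0 < t ∧ a - t • y₀ ∈ KN 𝒜 Γ j u) →
      (∃ t : ℝ, 0 < t ∧ ∀ e, t * (H₀ (j e) (j e)).re ≤ ((val a).1 e e).re) ∧
      Inn (NefF 𝒜 u) (rv u) (val a).2 := by
    rintro a ⟨t, ht, hat⟩
    refine ⟨⟨t * K₁, mul_pos ht hK₁pos, fun e => ?_⟩,
      t * ((expo Γ * Nat.card (gal Γ) : ℕ) : ℝ), mul_pos ht hkr, ?_⟩
    · have h1 := hat.1 e
      have h2 : a - t • y₀ = a + (-t) • y₀ := by rw [neg_smul, sub_eq_add_neg]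
      rw [h2, hform, hyf] at h1
      linarith
    · have h1 := hat.2
      have h2 : (val (a - t • y₀)).2 = (val a).2 - t • (val y₀).2 := rfl
      rwa [h2, hyd, smul_smul] at h1
  have hAmem : ∀ a : N1 𝒜 Γ j, (∃ t : ℝ, 0 < t ∧ a - t • y₀ ∈ KN 𝒜 Γ j u) →
      a ∈ nefEff 𝒜 Γ j u := by
    intro a ha
    obtain ⟨⟨t, ht, h1⟩, h2⟩ := hint2 a ha
    have h3 := inn_semi F hQ Rl ht h1 h2
    exact ⟨subset_closure h3, hull_le (fun b hb => semi_effX F hb) h3⟩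
  -- the group preserves the closed cone
  have hGK : ∀ g ∈ 𝒢, ∀ a ∈ KN 𝒜 Γ j u, g a ∈ KN 𝒜 Γ j u := by
    intro g hg a ha
    refine KN_closed.mem_of_tendsto (tends (g a) (g y₀)) (Eventually.of_forall fun k => ?_)
    have hε : (0 : ℝ) < 1 / ((k : ℝ) + 1) := by positivity
    have h2 := h𝒢.nef_eff g hg _ (hAmem (a + (1 / ((k : ℝ) + 1)) • y₀)
      ⟨_, hε, by rwa [add_sub_cancel_right]⟩)
    rw [map_add, map_smul] at h2
    rw [← closure_eqN F hQ Rl]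
    exact h2.1
  -- the covering
  obtain ⟨d, b, Pl⟩ := Rl.pol
  obtain ⟨FF, hF', hFc⟩ := Pl.red
  obtain ⟨m₀, hm₀, hauts⟩ := exists_aut2 hQ Rl
  obtain ⟨𝓡, h𝓡f, h𝓡U, h𝓡⟩ := Pl.fin_idx (Pool.Agent.Y167.finite_opE Rl) (by
    rintro y ⟨γ, hγ, hx⟩ v hv
    change j (y v) ∈ latt (base Γ)
    rw [hx]
    exact latt_inv γ hγ hv) m₀ hm₀
  obtain ⟨SF, hSF, hSFc⟩ := covering F hQ
  have hcl : ∀ z r, z ∈ FF → r ∈ 𝓡 → ∃ (a : Pool.Agent.Y167.N1 (base Γ) j) (m : ℕ), 0 < m ∧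
      Pool.Agent.Y167.Integral a ∧ a ∈ Pool.Agent.Y167.nefCone (base Γ) j ∧
      ∀ v w, a.1 v w = m * z (r v) (r w) := by
    intro z r hz hr
    obtain ⟨hz1, hz2⟩ := hF' z hz
    have hrU := h𝓡U r hr
    have h1 : Pol.IsInt (Pool.Agent.Y167.lattE (base Γ) j) (Pool.Agent.Y167.opE (base Γ) j)
        (fun v w => z (r v) (r w)) := by
      refine ⟨⟨?_, ?_, ?_⟩, ?_, ?_⟩
      · intro u v w
        rw [map_add, hz1.herm.add_left]
      · intro c v w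
        rw [map_smul, hz1.herm.smul_left]
      · intro v w
        exact hz1.herm.symm _ _
      · intro g hg u w
        rw [hrU.comm g hg, hrU.comm g hg, hz1.inv g hg]
      · intro u hu w hw
        exact hz1.int _ (hrU.map u hu) _ (hrU.map w hw)
    obtain ⟨m, hm, L, H, hL, h2, -⟩ := Rl.exists_class h1 (fun v => hz2 (r v))
    obtain ⟨a, ha1, ha2⟩ := Pool.Agent.Y167.exists_int (j := j) (L := L)
      (h := fun u w => H (j u) (j w)) ⟨H, hL, fun _ _ => rfl⟩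
    refine ⟨a, m, hm, ha2, fun v => ?_, fun v w => ?_⟩
    · rw [ha1]
      change 0 ≤ (H (j v) (j v)).re
      rw [h2]
      have e1 : (m : ℂ) = ((m : ℝ) : ℂ) := by push_cast; rfl
      rw [e1, Complex.re_ofReal_mul]
      exact mul_nonneg (Nat.cast_nonneg _) (hz2 (r v))
    · rw [ha1]
      exact h2 v w
  choose! af mf hmf haf1 haf2 haf3 using hcl
  let iB : (Fin ρ → ℝ) → N1 𝒜 Γ j := fun s =>
    if hs : s ∈ Bs 𝒜 Γ then (Nat.card (gal Γ) : ℝ) • i2 D hQ ⟨s, hs⟩ else 0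
  have hiB : ∀ s, ∀ hs : s ∈ Bs 𝒜 Γ, iB s = (Nat.card (gal Γ) : ℝ) • i2 D hQ ⟨s, hs⟩ :=
    fun s hs => dif_pos hs
  have hSB : ∀ s ∈ SF, s ∈ Bs 𝒜 Γ := by
    intro s hs
    obtain ⟨⟨β, hβ, h1⟩, -⟩ := hSF s hs
    exact Submodule.subset_span ⟨β, hβ, h1⟩
  let F₂ : Finset (N1 𝒜 Γ j) := ((FF ×ˢ h𝓡f.toFinset).image fun p => i1 (af p.1 p.2)) ∪ SF.image iB
  have hF₂ : ∀ a ∈ F₂, a ∈ intL 𝒜 Γ j ∧ a ∈ KN 𝒜 Γ j u := by
    intro a ha
    rcases Finset.mem_union.1 ha with ha | ha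
    · obtain ⟨p, hp, rfl⟩ := Finset.mem_image.1 ha
      rw [Finset.mem_product, h𝓡f.mem_toFinset] at hp
      exact ⟨Int.i1 (haf1 _ _ hp.1 hp.2), haf2 _ _ hp.1 hp.2, nefF_zero⟩
    · obtain ⟨s, hs, rfl⟩ := Finset.mem_image.1 ha
      rw [hiB s (hSB s hs)]
      obtain ⟨⟨β, hβ, h1⟩, h2⟩ := hSF s hs
      exact ⟨Int.i2 D hQ hβ h1, KN_smul hcardr.le ⟨fun e => le_refl (0 : ℝ), h2⟩⟩
  have hcov : ∀ a : N1 𝒜 Γ j, (∃ t : ℝ, 0 < t ∧ a - t • y₀ ∈ KN 𝒜 Γ j u) → ∃ g ∈ 𝒢,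
      g a ∈ cone F₂ := by
    intro a ha
    obtain ⟨⟨t, ht, h1⟩, h2⟩ := hint2 a ha
    obtain ⟨q, hu1, hu2, hu3, c, hc, hx⟩ := hFc (p1 hQ a).1
      (Pool.Agent.Y167.mem_span_int Rl (p1 hQ a)) ⟨t, ht, h1⟩
    obtain ⟨r, hr, q', hq', hqr⟩ := h𝓡 q ⟨hu1, hu2, hu3⟩
    obtain ⟨f, hf0, hf1, hf2, hf3⟩ := hauts q'.symm hq'.inv
    obtain ⟨G, hG1, hG2⟩ := exists_pull2 (j := j) D hQ hf1 hf2
    have hG𝒢 : G ∈ 𝒢 := by
      refine h𝒢.pull f 1 (AddEquiv.refl _) (isAut_of_refl induces_one) (descends_of_norm hf0)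
        (fun v => ?_) G ?_
      · obtain ⟨e, he⟩ := hf3 v
        exact ⟨_, he⟩
      · intro a
        refine ⟨fun v w v' w' hv hw => ?_, ?_⟩
        · rw [hf2] at hv hw
          rw [hG1, Rl.inj hv, Rl.inj hw]
        · rw [← rs_apply, rs_refl, hG2]
          rfl
    -- the automorphism of `F`
    obtain ⟨φ, σ, hφ, hcomm, hcone⟩ := hSFc (val a).2 (p2 a).2 h2
    obtain ⟨G', hG'1, hG'2⟩ := exists_pullF (j := j) D hQ hφ.1 hcomm
    have hG'𝒢 : G' ∈ 𝒢 := by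
      refine h𝒢.pull 1 φ⁻¹ σ.symm (isAut_inv hφ) (descends_of_comm hφ.1 hcomm)
        (fun v => ⟨0, by rw [map_zero, add_zero]; rfl⟩) G' ?_
      intro a
      refine ⟨fun v w v' w' hv hw => ?_, ?_⟩
      · have hv' : j v' = j v := hv
        have hw' : j w' = j w := hw
        rw [hG'1, Rl.inj hv', Rl.inj hw']
      · rw [← rs_apply, rs_symm, hG'2]
        exact (rs σ).symm_apply_apply _
    refine ⟨G' * G, 𝒢.mul_mem hG'𝒢 hG𝒢, ?_⟩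
    have hcomp : (G' * G) a = G' (G a) := rfl
    rw [hcomp, ← split D hQ (G' (G a))]
    refine cone_add ?_ ?_
    · have h3 : p1 hQ (G' (G a)) = ∑ z ∈ FF, (c z / mf z r) • af z r := by
        apply Subtype.ext
        funext v w
        have h4 : (∑ z ∈ FF, (c z / mf z r) • af z r : Pool.Agent.Y167.N1 (base Γ) j).1
            = ∑ z ∈ FF, (c z / mf z r) • (af z r).1 := by
          rw [Submodule.coe_sum]
          rfl
        have h5 : (p1 hQ (G' (G a))).1 v w = (p1 hQ a).1 (q'.symm v) (q'.symm w) := by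
          change (val (G' (G a))).1 v w = _
          rw [hG'1]
          exact hG1 a v w
        rw [h5, hx, h4]
        simp only [Finset.sum_apply, Pi.smul_apply]
        refine Finset.sum_congr rfl fun z hz => ?_
        rw [hqr, hqr, q'.apply_symm_apply, q'.apply_symm_apply, haf3 z r hz hr, Complex.real_smul]
        have hm : ((mf z r : ℕ) : ℂ) ≠ 0 := by
          have := hmf z r hz hr
          exact_mod_cast this.ne'
        push_cast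
        field_simp
      rw [h3, map_sum]
      refine cone_sum _ _ fun z hz => ?_
      rw [map_smul]
      refine cone_smul (mem_cone_self (Finset.mem_union_left _ ?_))
        (div_nonneg (hc z) (Nat.cast_nonneg _))
      exact Finset.mem_image.2 ⟨(z, r), by
        rw [Finset.mem_product, h𝓡f.mem_toFinset]
        exact ⟨hz, hr⟩, rfl⟩
    · have h3 : (p2 (G' (G a))).1 = rs σ (val a).2 := by
        change (val (G' (G a))).2 = _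
        rw [hG'2, hG2]
      have h4 : (p2 (G' (G a))).1 ∈ cone SF := by
        rw [h3]
        exact hcone
      obtain ⟨cs, hcs, h5⟩ := h4
      have h6 : (i2 D hQ (p2 (G' (G a))) : N1 𝒜 Γ j)
          = ∑ s ∈ SF, (cs s / Nat.card (gal Γ)) • iB s := by
        have h7 : p2 (G' (G a)) = ∑ s : SF, cs s • (⟨s.1, hSB s.1 s.2⟩ : Bs 𝒜 Γ) := by
          apply Subtype.ext
          rw [h5, Submodule.coe_sum, ← Finset.sum_coe_sort SF]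
          rfl
        rw [h7, map_sum, ← Finset.sum_coe_sort SF]
        refine Finset.sum_congr rfl fun s _ => ?_
        rw [map_smul, hiB s.1 (hSB s.1 s.2), smul_smul, div_mul_cancel₀ _ hcardr.ne']
      rw [h6]
      refine cone_sum _ _ fun s hs => cone_smul (mem_cone_self (Finset.mem_union_right _
        (Finset.mem_image_of_mem _ hs))) (div_nonneg (hcs s) hcardr.le)
  obtain ⟨S, hS1, hS2, hS3⟩ := DD.domain 𝒢 (fun g hg a ha => h𝒢.int g hg a ha) hGK F₂ hF₂ hcov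
  rw [hcp]
  refine ⟨S, fun a ha => (hS1 a ha).1, fun a ha => ⟨S, hS1, ha⟩, ?_, fun g hg hg1 => ?_⟩
  · ext a
    simp only [Set.mem_iUnion, Set.mem_image, exists_prop]
    rw [hS2]
    constructor
    · rintro ⟨g, hg, hga⟩
      exact ⟨g⁻¹, 𝒢.inv_mem hg, g a, hga, g.symm_apply_apply a⟩
    · rintro ⟨g, hg, y, hy, rfl⟩
      refine ⟨g⁻¹, 𝒢.inv_mem hg, ?_⟩
      have h1 : (g⁻¹ : N1 𝒜 Γ j ≃ₗ[ℝ] N1 𝒜 Γ j) (g y) = y := g.symm_apply_apply y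
      rwa [h1]
  · obtain ⟨φ, hφ0, hφ1, hφ2⟩ := hS3 g hg hg1
    refine interior_inter (continuous_sub_smul (v := (val : N1 𝒜 Γ j → Pairs E ρ))
      Topology.IsInducing.subtypeVal (fun _ _ => rfl) (fun _ _ => rfl)) hφ0 hφ1 ?_
    rintro _ ⟨y, hy, rfl⟩
    exact hφ2 y hy

end Pool.Agent.U201.EC
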