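import Pool.Agent.U201.EC.Real
import Pool.Agent.U201.EC.Siegel
import Pool.Agent.X324.CF.Dom2

/-!
# The nef cone of `F`
-/

set_option autoImplicit false

namespace Pool.Agent.U201.EC

open Finset Filter Topology
open Pool.Agent.X324.CF
open Pool.Agent.Y167 (cone cone_add cone_smul cone_le cone_mono cone_sum mem_cone_self
  zero_mem_cone cone_image cone_ind cone_of_scaled mem_cone_of_sum CData Cp)

variable {ρ : ℕ} {R : Type*} [CommRing R] [Algebra ℂ R]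
  {𝒜 : Cl ρ → Submodule ℂ R} {u : Cl ρ}

/-- No conditions on the classes `w i`. -/
def w0 (ρ : ℕ) : Fin 0 → Cl ρ := fun i => i.elim0

theorem IsConeVariety.base (F : IsConeVariety 𝒜 u) : Base 𝒜 (w0 ρ) where
  gens := fun H hH => by
    rw [eq_top_iff]
    intro β _
    obtain ⟨m, h1, h2⟩ := F.sections β
    have h3 := H.sub_mem (hH _ h1) (hH _ h2)
    rwa [add_sub_cancel_right] at h3
  pointed := fun c _ => funext fun i => i.elim0

theorem semi_eff (F : IsConeVariety 𝒜 u) {a : Fin ρ → ℝ} (ha : a ∈ semiR 𝒜 u) : a ∈ EffF 𝒜 := by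
  obtain ⟨β, ⟨m, hm, h1⟩, rfl⟩ := ha
  obtain ⟨p, hp⟩ := F.point
  obtain ⟨r, hr, hr0⟩ := h1 p hp
  have hmr : (0 : ℝ) < m := by exact_mod_cast hm
  refine hull_scaled hmr ⟨m • β, ⟨r, hr, fun h => hr0 (by rw [h, map_zero])⟩, ?_⟩
  rw [rv_nsmul]

theorem semi_eff_hull (F : IsConeVariety 𝒜 u) {a : Fin ρ → ℝ} (ha : a ∈ coneHull (semiR 𝒜 u)) :
    a ∈ EffF 𝒜 := hull_le (fun _ h => semi_eff F h) ha

theorem bound_eff {y : Cl ρ} (hy : ∀ β, (∃ r ∈ 𝒜 β, r ≠ 0) → ∀ i, |β i| ≤ ∑ k, y k * β k)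
    {x : Fin ρ → ℝ} (hx : x ∈ EffF 𝒜) (i : Fin ρ) : |x i| ≤ dot (rv y) x := by
  refine hull_ind (p := fun x => |x i| ≤ dot (rv y) x) ?_ ?_ ?_ ?_ hx
  · simp
  · intro a b ha hb
    rw [Pi.add_apply, map_add]
    exact (abs_add_le _ _).trans (add_le_add ha hb)
  · intro t a ht ha
    rw [Pi.smul_apply, map_smul, smul_eq_mul, smul_eq_mul, abs_mul, abs_of_nonneg ht]
    exact mul_le_mul_of_nonneg_left ha ht
  · rintro _ ⟨β, hβ, rfl⟩
    rw [dot_int, rv_apply]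
    have h1 := hy β hβ i
    rw [← Int.cast_abs]
    exact_mod_cast h1

theorem bound_nef (F : IsConeVariety 𝒜 u) {y : Cl ρ}
    (hy : ∀ β, (∃ r ∈ 𝒜 β, r ≠ 0) → ∀ i, |β i| ≤ ∑ k, y k * β k)
    {x : Fin ρ → ℝ} (hx : x ∈ NefF 𝒜 u) (i : Fin ρ) : |x i| ≤ dot (rv y) x := by
  have h1 : closure (coneHull (semiR 𝒜 u)) ⊆ {x | |x i| ≤ dot (rv y) x} := by
    refine closure_minimal (fun a ha => bound_eff hy (semi_eff_hull F ha) i) ?_
    exact isClosed_le (continuous_abs.comp (continuous_apply i)) (dot_continuous _)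
  exact h1 hx

theorem semi_u (F : IsConeVariety 𝒜 u) : rv u ∈ coneHull (semiR 𝒜 u) := by
  obtain ⟨m, hm⟩ := F.ample u
  have h1 : ((m : ℝ) + 1) • rv u ∈ semiR 𝒜 u := ⟨u + m • u, hm, by
    rw [rv_add, rv_nsmul]
    module⟩
  exact hull_scaled (by positivity) h1

theorem near (F : IsConeVariety 𝒜 u) : ∃ c : Fin ρ → ℝ, (∀ k, 0 ≤ c k) ∧
    ∀ (b : Fin ρ → ℝ) (t : ℝ), ∑ k, |b k| * c k ≤ t → t • rv u - b ∈ coneHull (semiR 𝒜 u) := by
  classical
  choose m hm using F.ample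
  have hu := semi_u F
  refine ⟨fun k => (m (Pi.single k 1) : ℝ) + m (-Pi.single k 1), fun k => by positivity,
    fun b t ht => ?_⟩
  have h1 : ∀ k, (|b k| * ((m (Pi.single k 1) : ℝ) + m (-Pi.single k 1))) • rv u
      - b k • rv (Pi.single k 1) ∈ coneHull (semiR 𝒜 u) := by
    intro k
    rcases le_total 0 (b k) with h | h
    · have h2 := hull_add (hull_smul h (hull_mem (P := semiR 𝒜 u) ⟨_, hm (-Pi.single k 1), rfl⟩))
        (hull_smul (t := b k * m (Pi.single k 1)) (by positivity) hu)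
      have h3 : b k • rv (-Pi.single k 1 + m (-Pi.single k 1) • u)
          + (b k * m (Pi.single k 1)) • rv u
          = (|b k| * ((m (Pi.single k 1) : ℝ) + m (-Pi.single k 1))) • rv u
            - b k • rv (Pi.single k 1) := by
        rw [abs_of_nonneg h, rv_add, rv_neg, rv_nsmul]
        module
      rwa [h3] at h2
    · have h2 := hull_add (hull_smul (neg_nonneg.2 h)
        (hull_mem (P := semiR 𝒜 u) ⟨_, hm (Pi.single k 1), rfl⟩))
        (hull_smul (t := -b k * m (-Pi.single k 1)) (mul_nonneg (neg_nonneg.2 h)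
          (Nat.cast_nonneg _)) hu)
      have h3 : (-b k) • rv (Pi.single k 1 + m (Pi.single k 1) • u)
          + (-b k * m (-Pi.single k 1)) • rv u
          = (|b k| * ((m (Pi.single k 1) : ℝ) + m (-Pi.single k 1))) • rv u
            - b k • rv (Pi.single k 1) := by
        rw [abs_of_nonpos h, rv_add, rv_nsmul]
        module
      rwa [h3] at h2
  have h2 : ∀ s : Finset (Fin ρ), (∑ k ∈ s, |b k| * ((m (Pi.single k 1) : ℝ)
      + m (-Pi.single k 1))) • rv u - ∑ k ∈ s, b k • rv (Pi.single k 1)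
        ∈ coneHull (semiR 𝒜 u) := by
    intro s
    induction s using Finset.induction_on with
    | empty => simpa using hull_zero
    | insert k s hk ih =>
      rw [Finset.sum_insert hk, Finset.sum_insert hk, add_smul, add_sub_add_comm]
      exact hull_add (h1 k) ih
  have h4 := h2 Finset.univ
  rw [rv_basis] at h4
  have h5 := hull_add h4 (hull_smul (sub_nonneg.2 ht) hu)
  have h6 : (∑ k, |b k| * ((m (Pi.single k 1) : ℝ) + m (-Pi.single k 1))) • rv u - b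
      + (t - ∑ k, |b k| * ((m (Pi.single k 1) : ℝ) + m (-Pi.single k 1))) • rv u
      = t • rv u - b := by
    rw [sub_smul]
    abel
  rwa [h6] at h5

/-- Interior points of the nef cone are combinations of semiample classes. -/
theorem inn_hull (F : IsConeVariety 𝒜 u) {x : Fin ρ → ℝ} (hx : Inn (NefF 𝒜 u) (rv u) x) :
    x ∈ coneHull (semiR 𝒜 u) := by
  obtain ⟨t, ht, h1⟩ := hx
  obtain ⟨c, hc, hnear⟩ := near F
  have hcont : Continuous fun z : Fin ρ → ℝ => ∑ k, |(z - (x - t • rv u)) k| * c k := by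
    refine continuous_finsetSum _ fun k _ => ?_
    exact (continuous_abs.comp ((continuous_apply k).comp
      (continuous_id.sub continuous_const))).mul continuous_const
  have hopen : IsOpen {z : Fin ρ → ℝ | ∑ k, |(z - (x - t • rv u)) k| * c k < t} :=
    isOpen_lt hcont continuous_const
  obtain ⟨z, hz1, hz2⟩ := mem_closure_iff.1 h1 _ hopen (by
    change ∑ k, |((x - t • rv u) - (x - t • rv u)) k| * c k < t
    simpa using ht)
  have h2 := hull_add hz2 (hnear (z - (x - t • rv u)) t hz1.le)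
  have h3 : z + (t • rv u - (z - (x - t • rv u))) = x := by abel
  rwa [h3] at h2

theorem span_ZL : Submodule.span ℝ (ZL ρ : Set (Fin ρ → ℝ)) = ⊤ := by
  rw [eq_top_iff]
  intro x _
  rw [← rv_basis x]
  exact Submodule.sum_mem _ fun k _ => Submodule.smul_mem _ _ (Submodule.subset_span ⟨_, rfl⟩)

/-- The data for the fundamental domain, on a space which is mapped injectively to the space of
real classes. -/
theorem cdata_of (F : IsConeVariety 𝒜 u) {W' : Type*} [AddCommGroup W'] [Module ℝ W']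
    [FiniteDimensional ℝ W'] (ι : W' →ₗ[ℝ] (Fin ρ → ℝ)) (hι : Function.Injective ι) {y₀ : W'}
    (hy : ι y₀ = rv u) {L' : AddSubgroup W'} (hyL : y₀ ∈ L')
    (hL : ∀ x ∈ L', ∃ β : Cl ρ, ι x = rv β) (hspan : Submodule.span ℝ (L' : Set W') = ⊤) :
    ∃ (ξ : W' →ₗ[ℝ] ℝ) (Y : Finset W'), CData L' {x | ι x ∈ NefF 𝒜 u} ξ y₀ Y := by
  classical
  obtain ⟨y, hyc⟩ := F.curve
  obtain ⟨c, hc, hnear⟩ := near F
  have hadd : ∀ a ∈ {x | ι x ∈ NefF 𝒜 u}, ∀ b ∈ {x | ι x ∈ NefF 𝒜 u},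
      a + b ∈ {x | ι x ∈ NefF 𝒜 u} := fun a ha b hb => by
    change ι (a + b) ∈ NefF 𝒜 u
    rw [map_add]
    exact nefF_add ha hb
  have hsmul : ∀ t : ℝ, 0 ≤ t → ∀ a ∈ {x | ι x ∈ NefF 𝒜 u}, t • a ∈ {x | ι x ∈ NefF 𝒜 u} :=
    fun t ht a ha => by
    change ι (t • a) ∈ NefF 𝒜 u
    rw [map_smul]
    exact nefF_smul ht ha
  have yK : y₀ ∈ {x | ι x ∈ NefF 𝒜 u} := by
    change ι y₀ ∈ NefF 𝒜 u
    rw [hy]
    exact subset_closure (semi_u F)
  have yint : ∀ b : W', ∃ C : ℝ, 0 < C ∧ C • y₀ - b ∈ {x | ι x ∈ NefF 𝒜 u} := by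
    intro b
    refine ⟨∑ k, |ι b k| * c k + 1, ?_, ?_⟩
    · have : 0 ≤ ∑ k, |ι b k| * c k :=
        Finset.sum_nonneg fun k _ => mul_nonneg (abs_nonneg _) (hc k)
      linarith
    · change ι (_ • y₀ - b) ∈ NefF 𝒜 u
      rw [map_sub, map_smul, hy]
      exact subset_closure (hnear _ _ (by linarith))
  obtain ⟨Y, hY1, hY2⟩ := exists_Y hadd hsmul hyL yK yint hspan
  have hb : ∀ x ∈ {x | ι x ∈ NefF 𝒜 u}, ∀ i, |ι x i| ≤ (dot (rv y) ∘ₗ ι) x :=
    fun x hx i => bound_nef F hyc hx i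
  have hex : ∀ x : W', x ≠ 0 → ∃ k, ι x k ≠ 0 := by
    intro x hx
    by_contra hcon
    push Not at hcon
    exact hx (hι (by rw [map_zero]; exact funext hcon))
  refine ⟨dot (rv y) ∘ₗ ι, Y,
    { add := hadd
      smul := hsmul
      xi_int := fun b hb => ?_
      xi_pos := fun b hb' hb0 => ?_
      fin := fun C => ?_
      y_L := hyL
      y_N := yK
      y_int := yint
      dom := fun η => ?_
      sep := fun b hb0 => ?_
      Y_mem := hY1
      Y_span := hY2 }⟩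
  · obtain ⟨β, h1⟩ := hL b hb
    rw [LinearMap.comp_apply, h1, dot_int]
    exact ⟨_, rfl⟩
  · obtain ⟨k, hk⟩ := hex b hb0
    exact lt_of_lt_of_le (abs_pos.2 hk) (hb b hb' k)
  · refine Set.Finite.of_finite_image (f := ι) ?_ hι.injOn
    refine ((Set.finite_Icc (fun _ : Fin ρ => -⌈C⌉) (fun _ => ⌈C⌉)).image rv).subset ?_
    rintro _ ⟨x, ⟨hxL, hxK, hxC⟩, rfl⟩
    obtain ⟨β, h1⟩ := hL x hxL
    have h2 : ∀ i, |β i| ≤ ⌈C⌉ := by
      intro i
      have h3 := (hb x hxK i).trans (hxC.trans (Int.le_ceil C))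
      rw [h1, rv_apply, ← Int.cast_abs] at h3
      exact_mod_cast h3
    exact ⟨β, ⟨fun i => (abs_le.1 (h2 i)).1, fun i => (abs_le.1 (h2 i)).2⟩, h1.symm⟩
  · obtain ⟨g, hg⟩ := ι.exists_leftInverse_of_injective (LinearMap.ker_eq_bot.2 hι)
    refine ⟨∑ k, |η (g (rv (Pi.single k 1)))|, fun x hx => ?_⟩
    have h1 : η x = ∑ k, ι x k * η (g (rv (Pi.single k 1))) := by
      have h2 : x = g (ι x) := (LinearMap.congr_fun hg x).symm
      conv_lhs => rw [h2, ← rv_basis (ι x), map_sum, map_sum]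
      exact Finset.sum_congr rfl fun k _ => by rw [map_smul, map_smul, smul_eq_mul]
    rw [h1, Finset.sum_mul]
    refine (Finset.abs_sum_le_sum_abs _ _).trans (Finset.sum_le_sum fun k _ => ?_)
    rw [abs_mul, mul_comm]
    exact mul_le_mul_of_nonneg_left (hb x hx k) (abs_nonneg _)
  · obtain ⟨k, hk⟩ := hex b hb0
    refine ⟨LinearMap.proj k ∘ₗ ι, fun x hx => ?_, hk⟩
    obtain ⟨β, h1⟩ := hL x hx
    exact ⟨β k, by rw [LinearMap.comp_apply, h1]; rfl⟩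

theorem exists_cdataF (F : IsConeVariety 𝒜 u) : ∃ (ξ : (Fin ρ → ℝ) →ₗ[ℝ] ℝ)
    (Y : Finset (Fin ρ → ℝ)), CData (ZL ρ) (NefF 𝒜 u) ξ (rv u) Y :=
  cdata_of F LinearMap.id Function.injective_id rfl ⟨u, rfl⟩ (fun _ hx => hx) span_ZL

theorem actG_L [GradedAlgebra 𝒜] : ∀ g ∈ actG 𝒜 u, ∀ x ∈ ZL ρ, g x ∈ ZL ρ := by
  rintro _ ⟨φ, σ, -, rfl⟩ _ ⟨β, rfl⟩
  rw [rs_rv]
  exact ⟨_, rfl⟩

theorem actG_N [GradedAlgebra 𝒜] : ∀ g ∈ actG 𝒜 u, ∀ x ∈ NefF 𝒜 u, g x ∈ NefF 𝒜 u := by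
  rintro _ ⟨φ, σ, h, rfl⟩ x hx
  exact nefF_act h hx

/-- A class in the effective cone has an effective multiple. -/
theorem eff_mult [IsDomain R] [GradedAlgebra 𝒜] {β : Cl ρ} (h : rv β ∈ EffF 𝒜) :
    ∃ m : ℕ, 0 < m ∧ ∃ r ∈ 𝒜 (m • β), r ≠ 0 := by
  classical
  obtain ⟨S, hS, c, hc, h1⟩ := h
  have hS' : ∀ a : S, ∃ γ : Cl ρ, ∃ r ∈ 𝒜 γ, r ≠ 0 ∧ a.1 = rv γ := by
    intro a
    obtain ⟨γ, ⟨r, hr, hr0⟩, h2⟩ := hS a.2
    exact ⟨γ, r, hr, hr0, h2⟩
  choose γ r hr hr0 hγ using hS'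
  let e := S.equivFin
  obtain ⟨k, hk, d, -, hd⟩ := exists_nat (w := fun i => γ (e.symm i)) (I := Finset.univ) (β := β)
    ⟨fun i => c (e.symm i).1, fun i => hc _, by
      rw [h1, ← Finset.sum_coe_sort S]
      refine Fintype.sum_equiv e _ _ fun a => ?_
      beta_reduce
      rw [e.symm_apply_apply, ← hγ]⟩
  refine ⟨k, hk, mon (fun i => r (e.symm i)) d, ?_, ?_⟩
  · rw [hd]
    exact mon_mem (𝒜 := 𝒜) (fun i => hr (e.symm i)) d
  · exact Finset.prod_ne_zero_iff.2 fun i _ => pow_ne_zero _ (hr0 _)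

/-- Every class in the hull of the rational nef classes is mapped to the fundamental cone. -/
theorem cover_cp [GradedAlgebra 𝒜] (F : IsConeVariety 𝒜 u) {P : Finset (Fin ρ → ℝ)}
    (hP : ∀ a ∈ P, (∃ β, a = rv β) ∧ a ∈ NefF 𝒜 u ∩ EffF 𝒜)
    (hcov : ∀ b ∈ NefF 𝒜 u ∩ EffF 𝒜, ∃ φ σ, IsAut 𝒜 u φ σ ∧ ext σ b ∈ cone P)
    {b : Fin ρ → ℝ} (hb : b ∈ Cp (ZL ρ) (NefF 𝒜 u)) :
    ∃ φ σ, IsAut 𝒜 u φ σ ∧ rs σ b ∈ cone P := by
  obtain ⟨ξ, Y, D⟩ := exists_cdataF F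
  obtain ⟨g, ⟨φ, σ, h1, rfl⟩, h2⟩ := closed_cover D actG_L actG_N P
    (fun a ha => ⟨(hP a ha).1, (hP a ha).2.1⟩) (fun x hx => by
      have h3 := inn_hull F hx
      obtain ⟨φ, σ, h4, h5⟩ := hcov x ⟨subset_closure h3, semi_eff_hull F h3⟩
      exact ⟨rs σ, ⟨φ, σ, h4, rfl⟩, h5⟩) hb
  exact ⟨φ, σ, h1, h2⟩

/-- An integral nef class has an effective multiple. -/
theorem nef_mult [IsDomain R] [GradedAlgebra 𝒜] (F : IsConeVariety 𝒜 u) {β : Cl ρ}
    (h : rv β ∈ NefF 𝒜 u) : ∃ m : ℕ, 0 < m ∧ ∃ r ∈ 𝒜 (m • β), r ≠ 0 := by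
  classical
  obtain ⟨P, hP, hcov⟩ := F.cone
  obtain ⟨φ, σ, h1, h2⟩ := cover_cp F hP hcov (b := rv β)
    ⟨{rv β}, fun a ha => by
      rw [Finset.mem_singleton] at ha
      rw [ha]
      exact ⟨⟨β, rfl⟩, h⟩, mem_cone_self (Finset.mem_singleton_self _)⟩
  rw [rs_rv] at h2
  have h3 : rv (σ β) ∈ EffF 𝒜 := hull_of_cone (fun a ha => (hP a ha).2.2) h2
  obtain ⟨m, hm, r, hr, hr0⟩ := eff_mult h3
  refine ⟨m, hm, φ.symm r, ?_, ?_⟩
  · rw [← induces_mem h1.1, map_nsmul, φ.apply_symm_apply]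
    exact hr
  · rwa [Ne, map_eq_zero_iff _ φ.symm.injective]

end Pool.Agent.U201.EC
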