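import Pool.Agent.U201.EC.FData
import Pool.Agent.Y167.Cls

/-!
# The action of the finite group on the classes of `F`, and equivariant coverings
-/

set_option autoImplicit false

namespace Pool.Agent.U201.EC

open Finset Filter Topology
open Pool.Agent.X324.CF
open Pool.Agent.Y167 (cone cone_add cone_smul cone_le cone_mono cone_sum mem_cone_self
  zero_mem_cone cone_image cone_ind cone_of_scaled mem_cone_of_sum CData Cp)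

variable {V R : Type*} [NormedAddCommGroup V] [NormedSpace ℂ V] [CommRing R] [Algebra ℂ R] {ρ : ℕ}
  {𝒜 : Cl ρ → Submodule ℂ R} {u : Cl ρ} {Γ : Grp V R}

theorem gal_induces (hQ : IsQuotient 𝒜 u Γ) (φ : gal Γ) : ∃ σ, Induces 𝒜 φ.1 σ := by
  obtain ⟨φ, γ, hγ, rfl⟩ := φ
  exact hQ.perm γ hγ

/-- The action of an element of the finite group on `Cl(F)`. -/
noncomputable def sg (hQ : IsQuotient 𝒜 u Γ) (φ : gal Γ) : Cl ρ ≃+ Cl ρ :=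
  (gal_induces hQ φ).choose

theorem sg_spec (hQ : IsQuotient 𝒜 u Γ) (φ : gal Γ) : Induces 𝒜 φ.1 (sg hQ φ) :=
  (gal_induces hQ φ).choose_spec

theorem inv_sg (hQ : IsQuotient 𝒜 u Γ) {β : Cl ρ} (hβ : X324.CF.Inv 𝒜 Γ β) (φ : gal Γ) :
    sg hQ φ β = β := by
  obtain ⟨φ, γ, hγ, rfl⟩ := φ
  exact hβ γ hγ _ (sg_spec hQ _)

theorem isAut_sg (hQ : IsQuotient 𝒜 u Γ) (φ : gal Γ) : IsAut 𝒜 u φ.1 (sg hQ φ) :=
  ⟨sg_spec hQ φ, fun p => by rw [inv_sg hQ hQ.inv]⟩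

theorem Bs_fixed (hQ : IsQuotient 𝒜 u Γ) {b : Fin ρ → ℝ} (hb : b ∈ Bs 𝒜 Γ) (φ : gal Γ) :
    rs (sg hQ φ) b = b := by
  induction hb using Submodule.span_induction with
  | mem b hb =>
    obtain ⟨β, hβ, rfl⟩ := hb
    rw [rs_rv, inv_sg hQ hβ]
  | zero => rw [map_zero]
  | add a b _ _ ha hb => rw [map_add, ha, hb]
  | smul c a _ ha => rw [map_smul, ha]

variable [GradedAlgebra 𝒜] {n : ℕ} {w : Fin n → Cl ρ}

theorem sg_mul (D : Base 𝒜 w) (hQ : IsQuotient 𝒜 u Γ) (φ ψ : gal Γ) :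
    sg hQ (φ * ψ) = (sg hQ ψ).trans (sg hQ φ) :=
  induces_unique D (sg_spec hQ (φ * ψ)) (induces_mul (sg_spec hQ φ) (sg_spec hQ ψ))

theorem inv_iff (D : Base 𝒜 w) (hQ : IsQuotient 𝒜 u Γ) {β : Cl ρ} :
    X324.CF.Inv 𝒜 Γ β ↔ ∀ φ : gal Γ, sg hQ φ β = β := by
  refine ⟨fun h φ => inv_sg hQ h φ, fun h γ hγ σ hσ => ?_⟩
  rw [induces_unique D hσ (sg_spec hQ ⟨γ.2, mem_gal hγ⟩)]
  exact h _

section Avg

variable [Fintype (gal Γ)]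

theorem inv_avg (D : Base 𝒜 w) (hQ : IsQuotient 𝒜 u Γ) (β : Cl ρ) :
    X324.CF.Inv 𝒜 Γ (∑ φ : gal Γ, sg hQ φ β) := by
  rw [inv_iff D hQ]
  intro ψ
  rw [map_sum]
  refine Fintype.sum_equiv (Equiv.mulLeft ψ) _ _ fun φ => ?_
  rw [Equiv.coe_mulLeft, sg_mul D hQ]
  rfl

/-- The sum of the translates. -/
noncomputable def avg (hQ : IsQuotient 𝒜 u Γ) : (Fin ρ → ℝ) →ₗ[ℝ] (Fin ρ → ℝ) :=
  ∑ φ : gal Γ, rl (sg hQ φ)

omit [GradedAlgebra 𝒜] in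
theorem avg_rv (hQ : IsQuotient 𝒜 u Γ) (β : Cl ρ) :
    avg hQ (rv β) = rv (∑ φ : gal Γ, sg hQ φ β) := by
  rw [avg, LinearMap.sum_apply, rv_sum]
  exact Finset.sum_congr rfl fun φ _ => rl_rv _ _

omit [GradedAlgebra 𝒜] in
theorem avg_fixed (hQ : IsQuotient 𝒜 u Γ) {b : Fin ρ → ℝ} (hb : ∀ φ, rs (sg hQ φ) b = b) :
    avg hQ b = (Fintype.card (gal Γ) : ℝ) • b := by
  rw [avg, LinearMap.sum_apply]
  have h1 : ∀ φ : gal Γ, rl (sg hQ φ) b = b := hb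
  rw [Finset.sum_congr rfl fun φ _ => h1 φ, Finset.sum_const, Finset.card_univ,
    Nat.cast_smul_eq_nsmul]

theorem Bs_of_fixed (D : Base 𝒜 w) (hQ : IsQuotient 𝒜 u Γ) {b : Fin ρ → ℝ}
    (hb : ∀ φ, rs (sg hQ φ) b = b) : b ∈ Bs 𝒜 Γ := by
  have h1 := avg_fixed hQ hb
  have hc : (0 : ℝ) < Fintype.card (gal Γ) := by exact_mod_cast Fintype.card_pos
  have h2 : b = (Fintype.card (gal Γ) : ℝ)⁻¹ • avg hQ b := by
    rw [h1, smul_smul, inv_mul_cancel₀ hc.ne', one_smul]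
  rw [h2]
  refine Submodule.smul_mem _ _ ?_
  rw [← rv_basis b, map_sum]
  refine Submodule.sum_mem _ fun k _ => ?_
  rw [map_smul, avg_rv]
  exact Submodule.smul_mem _ _ (Submodule.subset_span ⟨_, inv_avg D hQ _, rfl⟩)

/-- An invariant combination of classes with a property is a combination of invariant classes with
this property. -/
theorem avg_hull (D : Base 𝒜 w) (hQ : IsQuotient 𝒜 u Γ) {P : Cl ρ → Prop}
    (hP : ∀ β, P β → P (∑ φ : gal Γ, sg hQ φ β)) {b : Fin ρ → ℝ} (hb : b ∈ Bs 𝒜 Γ)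
    (h : b ∈ coneHull {a | ∃ β, P β ∧ a = rv β}) :
    b ∈ coneHull {a | ∃ β, (X324.CF.Inv 𝒜 Γ β ∧ P β) ∧ a = rv β} := by
  have hc : (0 : ℝ) < Fintype.card (gal Γ) := by exact_mod_cast Fintype.card_pos
  have h2 : b = (Fintype.card (gal Γ) : ℝ)⁻¹ • avg hQ b := by
    rw [avg_fixed hQ (Bs_fixed hQ hb), smul_smul, inv_mul_cancel₀ hc.ne', one_smul]
  rw [h2]
  refine hull_smul (inv_nonneg.2 hc.le) (hull_map ?_ h)
  rintro _ ⟨β, hβ, rfl⟩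
  rw [avg_rv]
  exact hull_mem ⟨_, ⟨inv_avg D hQ β, hP β hβ⟩, rfl⟩

end Avg

/-- Finitely many automorphisms up to scalars have an action in a given finite set. -/
theorem finite_fibre (F : IsConeVariety 𝒜 u) {Θ : Set ((Fin ρ → ℝ) ≃ₗ[ℝ] (Fin ρ → ℝ))}
    (hΘ : Θ.Finite) : ∃ T : Set (R ≃ₐ[ℂ] R), T.Finite ∧ ∀ ψ τ, Induces 𝒜 ψ τ → rs τ ∈ Θ →
      ∃ t ∈ T, ∃ s ∈ Scal 𝒜, ψ = t * s := by
  obtain ⟨T, hT, hk⟩ := F.kernel
  have h1 : ∀ θ : (Fin ρ → ℝ) ≃ₗ[ℝ] (Fin ρ → ℝ), ∃ ψ₀ : R ≃ₐ[ℂ] R, ∀ ψ τ, Induces 𝒜 ψ τ →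
      rs τ = θ → Induces 𝒜 ψ₀ τ := by
    intro θ
    by_cases h : ∃ ψ τ, Induces 𝒜 ψ τ ∧ rs τ = θ
    · obtain ⟨ψ₀, τ₀, h2, h3⟩ := h
      refine ⟨ψ₀, fun ψ τ _ h5 => ?_⟩
      rw [rs_inj (h5.trans h3.symm)]
      exact h2
    · exact ⟨1, fun ψ τ h4 h5 => absurd ⟨ψ, τ, h4, h5⟩ h⟩
  choose ψ₀ hψ₀ using h1
  refine ⟨Set.image2 (fun θ t => ψ₀ θ * t) Θ T, Set.Finite.image2 _ hΘ hT,
    fun ψ τ hψ hθ => ?_⟩
  have h2 := hψ₀ (rs τ) ψ τ hψ rfl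
  have h3 : Induces 𝒜 ((ψ₀ (rs τ))⁻¹ * ψ) (AddEquiv.refl _) := by
    have h4 := induces_mul (induces_inv h2) hψ
    have h5 : τ.trans τ.symm = AddEquiv.refl (Cl ρ) := by
      ext1 β
      exact τ.symm_apply_apply β
    rwa [h5] at h4
  obtain ⟨t, ht, s, hs, h4⟩ := hk _ h3
  refine ⟨_, ⟨rs τ, hθ, t, ht, rfl⟩, s, hs, ?_⟩
  rw [mul_assoc, ← h4, mul_inv_cancel_left]

/-- The part of a rational polyhedral cone fixed by the finite group. -/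
theorem cut_fixed (F : IsConeVariety 𝒜 u) (hQ : IsQuotient 𝒜 u Γ) (P : Finset (Fin ρ → ℝ))
    (hP : ∀ a ∈ P, (∃ β, a = rv β) ∧ a ∈ NefF 𝒜 u) :
    ∃ S : Finset (Fin ρ → ℝ), (∀ a ∈ S, (∃ β, X324.CF.Inv 𝒜 Γ β ∧ a = rv β) ∧ a ∈ NefF 𝒜 u) ∧
      ∀ b, b ∈ cone P → (∀ φ, rs (sg hQ φ) b = b) → b ∈ cone S := by
  classical
  have := hQ.fin_gal
  have : Fintype (gal Γ) := Fintype.ofFinite _
  obtain ⟨ξ, Y, D⟩ := exists_cdataF F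
  let ℓ : gal Γ × Fin ρ → ((Fin ρ → ℝ) →ₗ[ℝ] ℝ) := fun q =>
    LinearMap.proj q.2 ∘ₗ (rl (sg hQ q.1) - LinearMap.id)
  have hℓ : ∀ q x, ℓ q x = (rs (sg hQ q.1) x) q.2 - x q.2 := fun q x => rfl
  obtain ⟨S, hS, h⟩ := D.cut_many P hP (Finset.univ.image ℓ ∪ Finset.univ.image (fun q => -ℓ q))
    (by
      rintro φ hφ _ ⟨β, rfl⟩
      rcases Finset.mem_union.1 hφ with h | h
      · obtain ⟨q, -, rfl⟩ := Finset.mem_image.1 h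
        refine ⟨(sg hQ q.1 β) q.2 - β q.2, ?_⟩
        rw [hℓ, rs_rv]
        push_cast
        rfl
      · obtain ⟨q, -, rfl⟩ := Finset.mem_image.1 h
        refine ⟨-((sg hQ q.1 β) q.2 - β q.2), ?_⟩
        rw [LinearMap.neg_apply, hℓ, rs_rv]
        push_cast
        rfl)
  refine ⟨S, fun a ha => ⟨?_, (hS a ha).2⟩, fun b hb hfix => ?_⟩
  · obtain ⟨β, rfl⟩ := (hS a ha).1
    refine ⟨β, (inv_iff F.base hQ).2 fun φ => ?_, rfl⟩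
    apply rv_inj
    rw [← rs_rv]
    funext k
    have h1 := ((h _).1 (mem_cone_self ha)).2
    have h2 := h1 (ℓ (φ, k)) (Finset.mem_union_left _ (Finset.mem_image_of_mem _
      (Finset.mem_univ _)))
    have h3 := h1 (-ℓ (φ, k)) (Finset.mem_union_right _ (Finset.mem_image_of_mem
      (fun q => -ℓ q) (Finset.mem_univ (φ, k))))
    rw [LinearMap.neg_apply] at h3
    rw [hℓ] at h2 h3
    linarith
  · refine (h b).2 ⟨hb, fun φ hφ => ?_⟩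
    rcases Finset.mem_union.1 hφ with h | h
    · obtain ⟨q, -, rfl⟩ := Finset.mem_image.1 h
      rw [hℓ, hfix, sub_self]
    · obtain ⟨q, -, rfl⟩ := Finset.mem_image.1 h
      rw [LinearMap.neg_apply, hℓ, hfix, sub_self, neg_zero]

/-- **The equivariant covering.** The automorphisms of `F` which commute with the finite group up to
scalars move the invariant ample classes into finitely many rational polyhedral cones. -/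
theorem covering (F : IsConeVariety 𝒜 u) (hQ : IsQuotient 𝒜 u Γ) :
    ∃ S : Finset (Fin ρ → ℝ), (∀ a ∈ S, (∃ β, X324.CF.Inv 𝒜 Γ β ∧ a = rv β) ∧ a ∈ NefF 𝒜 u) ∧
      ∀ b ∈ Bs 𝒜 Γ, Inn (NefF 𝒜 u) (rv u) b → ∃ φ σ, IsAut 𝒜 u φ σ ∧
        (∀ ψ : gal Γ, ∃ s ∈ Scal 𝒜, φ * ψ.1 * φ⁻¹ = ψ.1 * s) ∧ rs σ b ∈ cone S := by
  classical
  have := hQ.fin_gal
  have : Fintype (gal Γ) := Fintype.ofFinite _
  obtain ⟨ξ, Y, D⟩ := exists_cdataF F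
  obtain ⟨P, hP, hcov⟩ := F.cone
  have hP' : ∀ a ∈ P, a ∈ ZL ρ ∧ a ∈ NefF 𝒜 u := fun a ha => ⟨(hP a ha).1, (hP a ha).2.1⟩
  obtain ⟨T, hT, hTf⟩ := finite_fibre F (siegel D (actG_L (𝒜 := 𝒜) (u := u)) actG_N P hP')
  -- the automorphisms which move an invariant ample class into the cone
  let 𝔊 := {a : R ≃ₐ[ℂ] R // ∃ σ b, IsAut 𝒜 u a σ ∧ b ∈ Bs 𝒜 Γ ∧ Inn (NefF 𝒜 u) (rv u) b ∧
    rs σ b ∈ cone P}
  have hconj : ∀ (a : 𝔊) (ψ : gal Γ), ∃ t : T, ∃ s ∈ Scal 𝒜, a.1 * ψ.1 * a.1⁻¹ = t.1 * s := by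
    rintro ⟨a, σ, b, h1, h2, h3, h4⟩ ψ
    have h5 : Induces 𝒜 (a * ψ.1 * a⁻¹) (σ.symm.trans ((sg hQ ψ).trans σ)) :=
      induces_mul (induces_mul h1.1 (sg_spec hQ ψ)) (induces_inv h1.1)
    obtain ⟨t, ht, s, hs, h6⟩ := hTf _ _ h5 (by
      have h7 : IsAut 𝒜 u (a * ψ.1 * a⁻¹) (σ.symm.trans ((sg hQ ψ).trans σ)) :=
        isAut_mul (isAut_mul h1 (isAut_sg hQ ψ)) (isAut_inv h1)
      refine ⟨⟨_, _, h7, rfl⟩, rs σ b, h4, inn_act D actG_N ⟨a, σ, h1, rfl⟩ h3, ?_⟩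
      rw [rs_trans, rs_trans, rs_symm]
      have h8 : (rs σ * rs (sg hQ ψ) * (rs σ)⁻¹) (rs σ b) = rs σ (rs (sg hQ ψ) b) := by
        change rs σ (rs (sg hQ ψ) ((rs σ).symm (rs σ b))) = _
        rw [(rs σ).symm_apply_apply]
      rw [h8, Bs_fixed hQ h2]
      exact h4)
    exact ⟨⟨t, ht⟩, s, hs, h6⟩
  choose c s hs hc using hconj
  have : Finite T := hT.to_subtype
  obtain ⟨𝔉, h𝔉, hrep⟩ := Pool.Agent.Y167.exists_reps c (Set.toFinite (Set.range c))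
  -- the invariant part of the cones
  have hσ : ∀ f : 𝔊, ∃ σ, IsAut 𝒜 u f.1 σ := fun f => by
    obtain ⟨a, σ, b, h1, -⟩ := f
    exact ⟨σ, h1⟩
  choose σf hσf using hσ
  have hcut : ∀ f : 𝔊, ∃ S : Finset (Fin ρ → ℝ),
      (∀ a ∈ S, (∃ β, X324.CF.Inv 𝒜 Γ β ∧ a = rv β) ∧ a ∈ NefF 𝒜 u) ∧
      ∀ b, b ∈ cone (P.image (rl (σf f).symm)) → (∀ φ, rs (sg hQ φ) b = b) → b ∈ cone S := by
    intro f
    refine cut_fixed F hQ _ ?_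
    intro a ha
    obtain ⟨x, hx, rfl⟩ := Finset.mem_image.1 ha
    obtain ⟨⟨β, rfl⟩, h2, -⟩ := hP x hx
    refine ⟨⟨_, rl_rv _ _⟩, ?_⟩
    exact nefF_act (isAut_inv (hσf f)) h2
  choose Sf hSf1 hSf2 using hcut
  refine ⟨h𝔉.toFinset.biUnion Sf, ?_, ?_⟩
  · intro a ha
    obtain ⟨f, -, h1⟩ := Finset.mem_biUnion.1 ha
    exact hSf1 f a h1
  · intro b hb hbi
    have h3 := inn_hull F hbi
    obtain ⟨a, σ, ha, hab⟩ := hcov b ⟨subset_closure h3, semi_eff_hull F h3⟩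
    let a' : 𝔊 := ⟨a, σ, b, ha, hb, hbi, hab⟩
    obtain ⟨f, hf, hfa⟩ := hrep a'
    have hz : IsAut 𝒜 u (f.1⁻¹ * a) (σ.trans (σf f).symm) := isAut_mul (isAut_inv (hσf f)) ha
    have hcomm : ∀ ψ : gal Γ, ∃ s ∈ Scal 𝒜,
        (f.1⁻¹ * a) * ψ.1 * (f.1⁻¹ * a)⁻¹ = ψ.1 * s := by
      intro ψ
      have e1 := hc a' ψ
      have e2 := hc f ψ
      have e3 : c a' ψ = c f ψ := by rw [hfa]
      have e4 : a * ψ.1 * a⁻¹ = (f.1 * ψ.1 * f.1⁻¹) * ((s f ψ)⁻¹ * s a' ψ) := by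
        rw [e2, ← e3]
        change a'.1 * ψ.1 * a'.1⁻¹ = _
        rw [e1]
        group
      refine ⟨f.1⁻¹ * ((s f ψ)⁻¹ * s a' ψ) * (f.1⁻¹)⁻¹,
        scal_conj (induces_inv (hσf f).1)
          ((Scal 𝒜).mul_mem ((Scal 𝒜).inv_mem (hs f ψ)) (hs a' ψ)), ?_⟩
      have e5 : (f.1⁻¹ * a) * ψ.1 * (f.1⁻¹ * a)⁻¹ = f.1⁻¹ * (a * ψ.1 * a⁻¹) * f.1 := by group
      rw [e5, e4]
      group
    refine ⟨_, _, hz, hcomm, ?_⟩
    have hmem : rs (σ.trans (σf f).symm) b ∈ cone (P.image (rl (σf f).symm)) := by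
      rw [rs_trans]
      exact cone_image (rl (σf f).symm) hab
    refine cone_mono (Finset.subset_biUnion_of_mem Sf ((h𝔉.mem_toFinset).2 hf))
      (hSf2 f _ hmem fun ψ => ?_)
    obtain ⟨s', hs', e6⟩ := hcomm ψ
    have h7 : Induces 𝒜 ((f.1⁻¹ * a) * ψ.1 * (f.1⁻¹ * a)⁻¹)
        ((σ.trans (σf f).symm).symm.trans ((sg hQ ψ).trans (σ.trans (σf f).symm))) :=
      induces_mul (induces_mul hz.1 (sg_spec hQ ψ)) (induces_inv hz.1)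
    rw [e6] at h7
    have h8 := induces_unique F.base h7 (induces_mul (sg_spec hQ ψ) (scal_induces hs'))
    have h9 : rs (sg hQ ψ) = rs (σ.trans (σf f).symm) * rs (sg hQ ψ) *
        (rs (σ.trans (σf f).symm))⁻¹ := by
      rw [← rs_symm, ← rs_trans, ← rs_trans, h8]
      congr 1
    have h10 : rs (sg hQ ψ) * rs (σ.trans (σf f).symm)
        = rs (σ.trans (σf f).symm) * rs (sg hQ ψ) := by
      conv_lhs => rw [h9]
      group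
    have h11 : rs (sg hQ ψ) (rs (σ.trans (σf f).symm) b)
        = rs (σ.trans (σf f).symm) (rs (sg hQ ψ) b) :=
      LinearEquiv.congr_fun h10 b
    rw [h11, Bs_fixed hQ hb]

end Pool.Agent.U201.EC
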