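import Pool.Agent.U201.EC.Defs
import Pool.Agent.X324.CF.Cls
import Pool.Agent.X324.CF.PolyNef

/-!
# The real extension of the action on the class group, and the group of automorphisms of `F`
-/

set_option autoImplicit false

namespace Pool.Agent.U201.EC

open Finset Filter Topology
open Pool.Agent.X324.CF
open Pool.Agent.Y167 (cone cone_add cone_smul cone_le cone_mono cone_sum mem_cone_self
  zero_mem_cone cone_image cone_ind cone_of_scaled mem_cone_of_sum)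

variable {ρ : ℕ}

theorem rv_basis (x : Fin ρ → ℝ) : ∑ k, x k • rv (Pi.single k 1 : Cl ρ) = x := by
  funext l
  rw [Finset.sum_apply, Finset.sum_eq_single l]
  · simp [rv]
  · intro b _ hb
    simp [rv, Pi.single_eq_of_ne (Ne.symm hb)]
  · intro h
    exact absurd (Finset.mem_univ _) h

theorem cl_basis (β : Cl ρ) : ∑ k, β k • (Pi.single k 1 : Cl ρ) = β := by
  apply rv_inj
  rw [rv_sum]
  conv_rhs => rw [← rv_basis (rv β)]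
  exact Finset.sum_congr rfl fun k _ => by rw [rv_zsmul]; rfl

theorem ext_rv' {M : Type*} [AddCommGroup M] [Module ℝ M] {f g : (Fin ρ → ℝ) →ₗ[ℝ] M}
    (h : ∀ β : Cl ρ, f (rv β) = g (rv β)) : f = g := by
  refine LinearMap.ext fun x => ?_
  rw [← rv_basis x, map_sum, map_sum]
  exact Finset.sum_congr rfl fun k _ => by rw [map_smul, map_smul, h]

/-- The linear extension. -/
noncomputable def rl (σ : Cl ρ ≃+ Cl ρ) : (Fin ρ → ℝ) →ₗ[ℝ] (Fin ρ → ℝ) where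
  toFun x := ext σ x
  map_add' x y := by
    simp only [ext, Pi.add_apply, add_smul, Finset.sum_add_distrib]
  map_smul' c x := by
    simp only [ext, Pi.smul_apply, smul_eq_mul, RingHom.id_apply, Finset.smul_sum, mul_smul]

theorem rl_rv (σ : Cl ρ ≃+ Cl ρ) (β : Cl ρ) : rl σ (rv β) = rv (σ β) := by
  change ∑ i, (rv β) i • rv (σ (Pi.single i 1)) = _
  conv_rhs => rw [← cl_basis β, map_sum, rv_sum]
  refine Finset.sum_congr rfl fun i _ => ?_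
  rw [map_zsmul, rv_zsmul]
  rfl

/-- The action on real classes. -/
noncomputable def rs (σ : Cl ρ ≃+ Cl ρ) : (Fin ρ → ℝ) ≃ₗ[ℝ] (Fin ρ → ℝ) :=
  LinearEquiv.ofLinearMap (rl σ) (rl σ.symm)
    (ext_rv' fun β => by
      rw [LinearMap.comp_apply, rl_rv, rl_rv, σ.apply_symm_apply]
      rfl)
    (ext_rv' fun β => by
      rw [LinearMap.comp_apply, rl_rv, rl_rv, σ.symm_apply_apply]
      rfl)

theorem rs_apply (σ : Cl ρ ≃+ Cl ρ) (x : Fin ρ → ℝ) : rs σ x = ext σ x := rfl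

theorem rs_rv (σ : Cl ρ ≃+ Cl ρ) (β : Cl ρ) : rs σ (rv β) = rv (σ β) := rl_rv σ β

theorem equiv_ext {f g : (Fin ρ → ℝ) ≃ₗ[ℝ] (Fin ρ → ℝ)} (h : ∀ β : Cl ρ, f (rv β) = g (rv β)) :
    f = g := LinearEquiv.toLinearMap_injective (ext_rv' h)

theorem rs_refl : rs (AddEquiv.refl (Cl ρ)) = 1 := equiv_ext fun β => rs_rv _ β

theorem rs_trans (σ τ : Cl ρ ≃+ Cl ρ) : rs (τ.trans σ) = rs σ * rs τ := equiv_ext fun β => by
  rw [rs_rv]
  change _ = rs σ (rs τ (rv β))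
  rw [rs_rv, rs_rv]
  rfl

theorem rs_symm (σ : Cl ρ ≃+ Cl ρ) : rs σ.symm = (rs σ)⁻¹ := by
  rw [eq_inv_iff_mul_eq_one, ← rs_trans, ← rs_refl]
  congr 1
  ext1 β
  exact σ.symm_apply_apply β

theorem rs_inj {σ τ : Cl ρ ≃+ Cl ρ} (h : rs σ = rs τ) : σ = τ := by
  ext1 β
  apply rv_inj
  rw [← rs_rv, ← rs_rv, h]

variable {R : Type*} [CommRing R] [Algebra ℂ R] {𝒜 : Cl ρ → Submodule ℂ R} {u : Cl ρ}

theorem induces_mul {φ ψ : R ≃ₐ[ℂ] R} {σ τ : Cl ρ ≃+ Cl ρ} (h : Induces 𝒜 φ σ)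
    (h' : Induces 𝒜 ψ τ) : Induces 𝒜 (φ * ψ) (τ.trans σ) := fun β r hr => h _ _ (h' β r hr)

theorem induces_one : Induces 𝒜 (1 : R ≃ₐ[ℂ] R) (AddEquiv.refl _) := fun _ _ hr => hr

theorem induces_mem [GradedAlgebra 𝒜] {φ : R ≃ₐ[ℂ] R} {σ : Cl ρ ≃+ Cl ρ} (h : Induces 𝒜 φ σ)
    {β : Cl ρ} {r : R} : φ r ∈ 𝒜 (σ β) ↔ r ∈ 𝒜 β := by
  classical
  refine ⟨fun hr => ?_, fun hr => h β r hr⟩
  have key : ∀ r : R, φ (GradedAlgebra.proj 𝒜 β r) = GradedAlgebra.proj 𝒜 (σ β) (φ r) := by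
    intro r
    refine DirectSum.Decomposition.inductionOn 𝒜
      (motive := fun r => φ (GradedAlgebra.proj 𝒜 β r) = GradedAlgebra.proj 𝒜 (σ β) (φ r))
      ?_ ?_ ?_ r
    · simp
    · intro δ m
      rw [GradedAlgebra.proj_apply, GradedAlgebra.proj_apply]
      by_cases hδ : δ = β
      · subst hδ
        rw [DirectSum.decompose_of_mem_same 𝒜 m.2, DirectSum.decompose_of_mem_same 𝒜 (h _ _ m.2)]
      · rw [DirectSum.decompose_of_mem_ne 𝒜 m.2 hδ,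
          DirectSum.decompose_of_mem_ne 𝒜 (h _ _ m.2) (fun e => hδ (σ.injective e)), map_zero]
    · intro a b ha hb
      rw [map_add, map_add, map_add, map_add, ha, hb]
  have h1 := key r
  rw [GradedAlgebra.proj_apply, GradedAlgebra.proj_apply,
    DirectSum.decompose_of_mem_same 𝒜 hr] at h1
  have h2 := φ.injective h1
  rw [← h2]
  exact SetLike.coe_mem _

theorem induces_inv [GradedAlgebra 𝒜] {φ : R ≃ₐ[ℂ] R} {σ : Cl ρ ≃+ Cl ρ} (h : Induces 𝒜 φ σ) :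
    Induces 𝒜 φ⁻¹ σ.symm := by
  intro β r hr
  rw [← induces_mem h]
  have h1 : φ (φ⁻¹ r) = r := φ.apply_symm_apply r
  rw [h1, σ.apply_symm_apply]
  exact hr

theorem semistable_act [GradedAlgebra 𝒜] {φ : R ≃ₐ[ℂ] R} {σ : Cl ρ ≃+ Cl ρ} (h : Induces 𝒜 φ σ)
    (v : Cl ρ) (p : R →ₐ[ℂ] ℂ) :
    Semistable 𝒜 (σ v) p ↔ Semistable 𝒜 v (p.comp (φ : R →ₐ[ℂ] R)) := by
  constructor
  · rintro ⟨m, hm, r, hr, hr0⟩
    refine ⟨m, hm, φ.symm r, ?_, ?_⟩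
    · rw [← induces_mem h, map_nsmul, φ.apply_symm_apply]
      exact hr
    · change p (φ (φ.symm r)) ≠ 0
      rwa [φ.apply_symm_apply]
  · rintro ⟨m, hm, r, hr, hr0⟩
    refine ⟨m, hm, φ r, ?_, hr0⟩
    rw [← map_nsmul]
    exact h _ _ hr

theorem isAut_mul [GradedAlgebra 𝒜] {φ ψ : R ≃ₐ[ℂ] R} {σ τ : Cl ρ ≃+ Cl ρ}
    (h : IsAut 𝒜 u φ σ) (h' : IsAut 𝒜 u ψ τ) : IsAut 𝒜 u (φ * ψ) (τ.trans σ) := by
  refine ⟨induces_mul h.1 h'.1, fun p => ?_⟩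
  change Semistable 𝒜 (σ (τ u)) p ↔ _
  rw [semistable_act h.1, h'.2, ← semistable_act h.1]
  exact h.2 p

theorem isAut_inv [GradedAlgebra 𝒜] {φ : R ≃ₐ[ℂ] R} {σ : Cl ρ ≃+ Cl ρ}
    (h : IsAut 𝒜 u φ σ) : IsAut 𝒜 u φ⁻¹ σ.symm := by
  have h3 := induces_inv h.1
  refine ⟨h3, fun p => ?_⟩
  rw [semistable_act h3, ← h.2, semistable_act h.1]
  have h4 : (p.comp ((φ⁻¹ : R ≃ₐ[ℂ] R) : R →ₐ[ℂ] R)).comp (φ : R →ₐ[ℂ] R) = p := by
    ext1 r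
    change p (φ.symm (φ r)) = p r
    rw [φ.symm_apply_apply]
  rw [h4]

theorem isAut_of_refl {s : R ≃ₐ[ℂ] R} (hs : Induces 𝒜 s (AddEquiv.refl _)) :
    IsAut 𝒜 u s (AddEquiv.refl _) := ⟨hs, fun _ => Iff.rfl⟩

/-- The group of the actions of the automorphisms of `F` on real classes. -/
noncomputable def actG (𝒜 : Cl ρ → Submodule ℂ R) [GradedAlgebra 𝒜] (u : Cl ρ) :
    Subgroup ((Fin ρ → ℝ) ≃ₗ[ℝ] (Fin ρ → ℝ)) where
  carrier := {g | ∃ φ σ, IsAut 𝒜 u φ σ ∧ g = rs σ}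
  one_mem' := ⟨1, _, isAut_of_refl induces_one, rs_refl.symm⟩
  mul_mem' := by
    rintro _ _ ⟨φ, σ, h, rfl⟩ ⟨ψ, τ, h', rfl⟩
    exact ⟨_, _, isAut_mul h h', (rs_trans _ _).symm⟩
  inv_mem' := by
    rintro _ ⟨φ, σ, h, rfl⟩
    exact ⟨_, _, isAut_inv h, (rs_symm _).symm⟩

theorem semiampleF_act [GradedAlgebra 𝒜] {φ : R ≃ₐ[ℂ] R} {σ : Cl ρ ≃+ Cl ρ}
    (h : IsAut 𝒜 u φ σ) {β : Cl ρ} (hβ : SemiampleF 𝒜 u β) : SemiampleF 𝒜 u (σ β) := by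
  obtain ⟨m, hm, h1⟩ := hβ
  refine ⟨m, hm, fun p hp => ?_⟩
  obtain ⟨r, hr, hr0⟩ := h1 (p.comp (φ : R →ₐ[ℂ] R)) ((semistable_act h.1 u p).1 ((h.2 p).2 hp))
  refine ⟨φ r, ?_, hr0⟩
  rw [← map_nsmul]
  exact h.1 _ _ hr

/-- The semiample classes. -/
def semiR (𝒜 : Cl ρ → Submodule ℂ R) (u : Cl ρ) : Set (Fin ρ → ℝ) :=
  {b | ∃ β, SemiampleF 𝒜 u β ∧ b = rv β}

/-- The effective classes. -/
def effR (𝒜 : Cl ρ → Submodule ℂ R) : Set (Fin ρ → ℝ) :=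
  {b | ∃ β, (∃ r ∈ 𝒜 β, r ≠ 0) ∧ b = rv β}

theorem nefF_eq : NefF 𝒜 u = closure (coneHull (semiR 𝒜 u)) := rfl

theorem effF_eq : EffF 𝒜 = coneHull (effR 𝒜) := rfl

theorem hull_map {P Q : Set (Fin ρ → ℝ)} {g : (Fin ρ → ℝ) →ₗ[ℝ] (Fin ρ → ℝ)}
    (h : ∀ a ∈ P, g a ∈ coneHull Q) {x : Fin ρ → ℝ} (hx : x ∈ coneHull P) : g x ∈ coneHull Q := by
  refine hull_ind (p := fun x => g x ∈ coneHull Q) ?_ ?_ ?_ h hx
  · rw [map_zero]; exact hull_zero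
  · intro a b ha hb
    rw [map_add]
    exact hull_add ha hb
  · intro t a ht ha
    rw [map_smul]
    exact hull_smul ht ha

theorem rl_continuous (g : (Fin ρ → ℝ) →ₗ[ℝ] (Fin ρ → ℝ)) : Continuous g :=
  LinearMap.continuous_of_finiteDimensional g

theorem nefF_act [GradedAlgebra 𝒜] {φ : R ≃ₐ[ℂ] R} {σ : Cl ρ ≃+ Cl ρ}
    (h : IsAut 𝒜 u φ σ) {x : Fin ρ → ℝ} (hx : x ∈ NefF 𝒜 u) : rs σ x ∈ NefF 𝒜 u := by
  have h1 : Set.MapsTo (rl σ) (coneHull (semiR 𝒜 u)) (coneHull (semiR 𝒜 u)) := by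
    intro a ha
    refine hull_map ?_ ha
    rintro _ ⟨β, hβ, rfl⟩
    rw [rl_rv]
    exact hull_mem ⟨_, semiampleF_act h hβ, rfl⟩
  exact h1.closure (rl_continuous _) hx

theorem effF_act {φ : R ≃ₐ[ℂ] R} {σ : Cl ρ ≃+ Cl ρ}
    (h : Induces 𝒜 φ σ) {x : Fin ρ → ℝ} (hx : x ∈ EffF 𝒜) : rs σ x ∈ EffF 𝒜 := by
  refine hull_map (g := rl σ) ?_ hx
  rintro _ ⟨β, ⟨r, hr, hr0⟩, rfl⟩
  rw [rl_rv]
  exact hull_mem ⟨_, ⟨φ r, h _ _ hr, by rwa [Ne, map_eq_zero_iff _ φ.injective]⟩, rfl⟩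

theorem nefF_add {x y : Fin ρ → ℝ} (hx : x ∈ NefF 𝒜 u) (hy : y ∈ NefF 𝒜 u) :
    x + y ∈ NefF 𝒜 u :=
  map_mem_closure₂ continuous_add hx hy fun _ ha _ hb => hull_add ha hb

theorem nefF_smul {x : Fin ρ → ℝ} {t : ℝ} (ht : 0 ≤ t) (hx : x ∈ NefF 𝒜 u) :
    t • x ∈ NefF 𝒜 u :=
  map_mem_closure (continuous_const_smul t) hx fun _ ha => hull_smul ht ha

theorem nefF_zero : (0 : Fin ρ → ℝ) ∈ NefF 𝒜 u := subset_closure hull_zero

/-! ### Scalars -/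

theorem scal_conj [GradedAlgebra 𝒜] {φ : R ≃ₐ[ℂ] R} {σ : Cl ρ ≃+ Cl ρ} (h : Induces 𝒜 φ σ)
    {s : R ≃ₐ[ℂ] R} (hs : s ∈ Scal 𝒜) : φ * s * φ⁻¹ ∈ Scal 𝒜 := by
  intro β
  obtain ⟨c, hc⟩ := hs (σ.symm β)
  refine ⟨c, fun r hr => ?_⟩
  change φ (s (φ⁻¹ r)) = _
  rw [hc _ (induces_inv h β r hr), map_smul]
  have h1 : φ (φ⁻¹ r) = r := φ.apply_symm_apply r
  rw [h1]

theorem scal_induces {s : R ≃ₐ[ℂ] R} (hs : s ∈ Scal 𝒜) :
    Induces 𝒜 s (AddEquiv.refl _) := by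
  intro β r hr
  obtain ⟨c, hc⟩ := hs β
  rw [hc r hr]
  exact (𝒜 β).smul_mem c hr

/-- The action of an automorphism is determined by the automorphism. -/
theorem induces_unique {n : ℕ} {w : Fin n → Cl ρ} [GradedAlgebra 𝒜] (D : Base 𝒜 w)
    {φ : R ≃ₐ[ℂ] R} {σ τ : Cl ρ ≃+ Cl ρ} (h : Induces 𝒜 φ σ) (h' : Induces 𝒜 φ τ) : σ = τ := by
  classical
  let H : AddSubgroup (Cl ρ) :=
    { carrier := {β | σ β = τ β}
      add_mem' := fun {a b} ha hb => by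
        change σ (a + b) = τ (a + b)
        rw [map_add, map_add, ha, hb]
      zero_mem' := by
        change σ 0 = τ 0
        rw [map_zero, map_zero]
      neg_mem' := fun {a} ha => by
        change σ (-a) = τ (-a)
        rw [map_neg, map_neg, ha] }
  have h1 : H = ⊤ := D.gens H (by
    rintro β ⟨r, hr, hr0⟩
    by_contra hne
    have h2 := DirectSum.decompose_of_mem_same 𝒜 (h β r hr)
    rw [DirectSum.decompose_of_mem_ne 𝒜 (h' β r hr) (fun e => hne e.symm)] at h2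
    have h3 : φ r = 0 := h2.symm
    exact hr0 (by rwa [map_eq_zero_iff _ φ.injective] at h3))
  ext1 β
  have h2 : β ∈ H := by rw [h1]; trivial
  exact h2

end Pool.Agent.U201.EC
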